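import Pool.Agent.W206.CU.BF2

/-!
# Functional equations on principal open sets

If `h ^ N b(s) f ^ s = P(s) f ^ (s + 1)`, then `(s + 1) b(s + 1)` satisfies a functional equation for
the polynomial `u f + y (t h - 1)`.
-/

set_option autoImplicit false

namespace Pool.Agent.Q221.Loc

open MvPolynomial Pool.Agent.W206.CU
open Pool.Agent.H628R4.TP (weylS IsBFunction)

/-- `b` is a `b`-function of `f` on the open set `h ≠ 0`: `h ^ N b(s) f ^ s = P(s) f ^ (s + 1)` for
some `N` and some `P = ∑_m P_m s ^ m` with coefficients `P_m` in the Weyl algebra. (Equivalently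
`b(s) f ^ s = P(s) f ^ (s + 1)` where the `P_m` are differential operators on `h ≠ 0`.) -/
def IsBFunctionOn {σ : Type} (f h : MvPolynomial σ ℂ) (b : Polynomial ℂ) : Prop :=
  ∃ (N : ℕ) (P : ℕ →₀ weylS σ), ∀ s : ℕ, h ^ N * (C (b.eval (s : ℂ)) * f ^ s) =
    P.sum fun m Q => ((s : ℂ) ^ m) • (Q : Module.End ℂ (MvPolynomial σ ℂ)) (f ^ (s + 1))

theorem isBFunctionOn_iff {σ : Type} (f h : MvPolynomial σ ℂ) (b : Polynomial ℂ) :
    IsBFunctionOn f h b ↔ ∃ N : ℕ, ∃ P ∈ fam σ, ∀ s : ℕ,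
      h ^ N * (C (b.eval (s : ℂ)) * f ^ s) = P s (f ^ (s + 1)) := by
  constructor
  · rintro ⟨N, c, hc⟩
    refine ⟨N, _, mem_fam_of_finsupp c, fun s => ?_⟩
    rw [hc s]
    simp [Finsupp.sum]
  · rintro ⟨N, P, hP, h⟩
    obtain ⟨c, hc⟩ := exists_of_mem_fam hP
    refine ⟨N, c, fun s => ?_⟩
    rw [h s, hc s]
    simp [Finsupp.sum]

/-! ### The polynomial -/

section

variable {R : Type} [CommRing R] {σ : Type}

/-- the polynomial `t h - 1` -/
noncomputable def zz (h : MvPolynomial σ R) : MvPolynomial (σ ⊕ Fin 3) R :=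
  X (Sum.inr 2) * rename Sum.inl h - 1

/-- the polynomial `u f + y (t h - 1)` -/
noncomputable def FF (f h : MvPolynomial σ R) : MvPolynomial (σ ⊕ Fin 3) R :=
  X (Sum.inr 0) * rename Sum.inl f + X (Sum.inr 1) * (X (Sum.inr 2) * rename Sum.inl h - 1)

theorem FF_eq (f h : MvPolynomial σ R) :
    FF f h = X (Sum.inr 0) * rename Sum.inl f + X (Sum.inr 1) * zz h := rfl

theorem map_FF {S : Type} [CommRing S] (φ : R →+* S) (f h : MvPolynomial σ R) :
    map φ (FF f h) = FF (map φ f) (map φ h) := by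
  simp only [FF, map_add, map_mul, map_sub, map_X, map_one, map_rename]

end

section step

variable {σ : Type}

/-- the derivation `h ∂_i - t (∂_i h) ∂_t` -/
noncomputable def dd (h : MvPolynomial σ ℂ) (i : σ) :
    Derivation ℂ (MvPolynomial (σ ⊕ Fin 3) ℂ) (MvPolynomial (σ ⊕ Fin 3) ℂ) :=
  (rename Sum.inl h : MvPolynomial (σ ⊕ Fin 3) ℂ) •
      (pderiv (Sum.inl i) : Derivation ℂ (MvPolynomial (σ ⊕ Fin 3) ℂ)
        (MvPolynomial (σ ⊕ Fin 3) ℂ)) -
    (X (Sum.inr 2) * rename Sum.inl (pderiv i h) : MvPolynomial (σ ⊕ Fin 3) ℂ) •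
      (pderiv (Sum.inr 2) : Derivation ℂ (MvPolynomial (σ ⊕ Fin 3) ℂ)
        (MvPolynomial (σ ⊕ Fin 3) ℂ))

theorem dd_apply (h : MvPolynomial σ ℂ) (i : σ) (m : MvPolynomial (σ ⊕ Fin 3) ℂ) :
    dd h i m = rename Sum.inl h * pderiv (Sum.inl i) m -
      (X (Sum.inr 2) * rename Sum.inl (pderiv i h)) * pderiv (Sum.inr 2) m := by
  simp [dd, Derivation.sub_apply, Derivation.smul_apply]

theorem pderiv_inl_rename (i : σ) (g : MvPolynomial σ ℂ) :
    pderiv (Sum.inl i) (rename Sum.inl g : MvPolynomial (σ ⊕ Fin 3) ℂ) =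
      rename Sum.inl (pderiv i g) :=
  MvPolynomial.pderiv_rename (fun a b hab => Sum.inl_injective hab) i g

theorem pderiv_inr_rename (k : Fin 3) (g : MvPolynomial σ ℂ) :
    pderiv (Sum.inr k) (rename Sum.inl g : MvPolynomial (σ ⊕ Fin 3) ℂ) = 0 :=
  pderiv_rename_of_not Sum.inl (Sum.inr k) (by simp) g

theorem dd_rename (h : MvPolynomial σ ℂ) (i : σ) (g : MvPolynomial σ ℂ) :
    dd h i (rename Sum.inl g) = rename Sum.inl (h * pderiv i g) := by
  rw [dd_apply, pderiv_inl_rename, pderiv_inr_rename, mul_zero, sub_zero, map_mul]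

theorem dd_X (h : MvPolynomial σ ℂ) (i : σ) {k : Fin 3} (hk : k ≠ 2) :
    dd h i (X (Sum.inr k)) = 0 := by
  rw [dd_apply, pderiv_X_of_ne (by simp), pderiv_X_of_ne (by simpa using hk), mul_zero, mul_zero,
    sub_zero]

theorem dd_zz (h : MvPolynomial σ ℂ) (i : σ) : dd h i (zz h) = 0 := by
  rw [dd_apply, zz, map_sub, map_sub, Derivation.leibniz, Derivation.leibniz,
    pderiv_X_of_ne (by simp), pderiv_X_self, pderiv_inl_rename, pderiv_inr_rename, pderiv_one,
    pderiv_one]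
  simp only [smul_eq_mul]
  ring

theorem dd_mem [Finite σ] (h : MvPolynomial σ ℂ) (i : σ) :
    (dd h i : MvPolynomial (σ ⊕ Fin 3) ℂ →ₗ[ℂ] MvPolynomial (σ ⊕ Fin 3) ℂ) ∈
      weylS (σ ⊕ Fin 3) := weylS_derivation _

/-- Lifting of operators, with powers of `h`. -/
theorem weylS_lift [Finite σ] (h : MvPolynomial σ ℂ) {Q : Module.End ℂ (MvPolynomial σ ℂ)}
    (hQ : Q ∈ weylS σ) :
    ∃ k : ℕ, ∀ m : ℕ, ∃ Q' ∈ weylS (σ ⊕ Fin 3), ∀ (g : MvPolynomial σ ℂ)
      (w : MvPolynomial (σ ⊕ Fin 3) ℂ), (∀ i : σ, dd h i w = 0) →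
      Q' (rename Sum.inl (h ^ m * g) * w) = rename Sum.inl (h ^ (m + k) * Q g) * w := by
  induction hQ using Algebra.adjoin_induction with
  | mem x hx =>
    rcases hx with ⟨i, rfl⟩ | ⟨i, rfl⟩
    · refine ⟨0, fun m => ⟨LinearMap.mulLeft ℂ (X (Sum.inl i)), weylS_mulLeft _,
        fun g w hw => ?_⟩⟩
      simp only [LinearMap.mulLeft_apply, add_zero, map_mul, rename_X]
      ring
    · refine ⟨1, fun m => ⟨(dd h i : MvPolynomial (σ ⊕ Fin 3) ℂ →ₗ[ℂ] MvPolynomial (σ ⊕ Fin 3) ℂ) -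
        LinearMap.mulLeft ℂ ((m : MvPolynomial (σ ⊕ Fin 3) ℂ) * rename Sum.inl (pderiv i h)),
        (weylS _).sub_mem (dd_mem h i) (weylS_mulLeft _), fun g w hw => ?_⟩⟩
      rw [LinearMap.sub_apply, Derivation.coeFn_coe, Derivation.leibniz, hw i, dd_rename,
        LinearMap.mulLeft_apply, Derivation.coeFn_coe, Derivation.leibniz, Derivation.leibniz_pow]
      simp only [smul_eq_mul, nsmul_eq_mul, mul_zero, zero_add, map_mul, map_add, map_natCast]
      rcases m with _ | m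
      · simp only [Nat.cast_zero, pow_zero, map_one]
        ring
      · simp only [Nat.add_sub_cancel, map_pow]
        ring
  | algebraMap r =>
    refine ⟨0, fun m => ⟨algebraMap ℂ _ r, (weylS _).algebraMap_mem r, fun g w hw => ?_⟩⟩
    simp only [Module.algebraMap_end_apply, add_zero, MvPolynomial.smul_eq_C_mul, map_mul,
      rename_C]
    ring
  | add x y hx hy ihx ihy =>
    obtain ⟨k1, h1⟩ := ihx
    obtain ⟨k2, h2⟩ := ihy
    refine ⟨k1 + k2, fun m => ?_⟩
    obtain ⟨x', hx', e1⟩ := h1 m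
    obtain ⟨y', hy', e2⟩ := h2 m
    refine ⟨LinearMap.mulLeft ℂ (rename Sum.inl h ^ k2) * x' +
      LinearMap.mulLeft ℂ (rename Sum.inl h ^ k1) * y',
      (weylS _).add_mem ((weylS _).mul_mem (weylS_mulLeft _) hx')
        ((weylS _).mul_mem (weylS_mulLeft _) hy'), fun g w hw => ?_⟩
    rw [LinearMap.add_apply, Module.End.mul_apply, Module.End.mul_apply, e1 g w hw, e2 g w hw,
      LinearMap.mulLeft_apply, LinearMap.mulLeft_apply, LinearMap.add_apply]
    simp only [map_mul, map_add, map_pow]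
    ring
  | mul x y hx hy ihx ihy =>
    obtain ⟨k1, h1⟩ := ihx
    obtain ⟨k2, h2⟩ := ihy
    refine ⟨k2 + k1, fun m => ?_⟩
    obtain ⟨y', hy', e2⟩ := h2 m
    obtain ⟨x', hx', e1⟩ := h1 (m + k2)
    refine ⟨x' * y', (weylS _).mul_mem hx' hy', fun g w hw => ?_⟩
    rw [Module.End.mul_apply, e2 g w hw, e1 _ w hw, Module.End.mul_apply, add_assoc]

/-- The Euler operator `y ∂_y`. -/
noncomputable def ty (σ : Type) : Module.End ℂ (MvPolynomial (σ ⊕ Fin 3) ℂ) :=
  LinearMap.mulLeft ℂ (X (Sum.inr 1)) *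
    ((pderiv (Sum.inr 1) : Derivation ℂ (MvPolynomial (σ ⊕ Fin 3) ℂ)
      (MvPolynomial (σ ⊕ Fin 3) ℂ)) :
      MvPolynomial (σ ⊕ Fin 3) ℂ →ₗ[ℂ] MvPolynomial (σ ⊕ Fin 3) ℂ)

theorem ty_mem : ty σ ∈ weylS (σ ⊕ Fin 3) :=
  (weylS _).mul_mem (weylS_mulLeft _) (weylS_pderiv _)

theorem ty_apply (m : MvPolynomial (σ ⊕ Fin 3) ℂ) :
    ty σ m = X (Sum.inr 1) * pderiv (Sum.inr 1) m := rfl

theorem ty_rename_mul (g : MvPolynomial σ ℂ) (w : MvPolynomial (σ ⊕ Fin 3) ℂ) :
    ty σ (rename Sum.inl g * w) = rename Sum.inl g * ty σ w := by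
  rw [ty_apply, ty_apply, Derivation.leibniz, pderiv_inr_rename, smul_zero, add_zero, smul_eq_mul]
  ring

theorem fam_lift [Finite σ] (h : MvPolynomial σ ℂ) {P : ℕ → Module.End ℂ (MvPolynomial σ ℂ)}
    (hP : P ∈ fam σ) :
    ∃ k : ℕ, ∀ m : ℕ, ∃ P' ∈ fam (σ ⊕ Fin 3), ∀ (s j : ℕ) (g : MvPolynomial σ ℂ)
      (w : MvPolynomial (σ ⊕ Fin 3) ℂ), (∀ i : σ, dd h i w = 0) → ty σ w = (j : ℂ) • w →
      P' (s + j) (rename Sum.inl (h ^ m * g) * w) =
        rename Sum.inl (h ^ (m + k) * P s g) * w := by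
  induction hP using Algebra.adjoin_induction with
  | mem x hx =>
    rcases hx with ⟨Q, hQ, rfl⟩ | hx
    · obtain ⟨k, h1⟩ := weylS_lift h hQ
      refine ⟨k, fun m => ?_⟩
      obtain ⟨Q', hQ', e⟩ := h1 m
      exact ⟨_, fam_const hQ', fun s j g w hw _ => e g w hw⟩
    · rw [Set.mem_singleton_iff] at hx
      subst hx
      refine ⟨0, fun m => ⟨(fun s : ℕ => (s : ℂ) • (1 : Module.End ℂ
        (MvPolynomial (σ ⊕ Fin 3) ℂ))) - fun _ => ty σ,
        (fam _).sub_mem (fam_nat _) (fam_const ty_mem), fun s j g w hw hj => ?_⟩⟩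
      rw [Pi.sub_apply, LinearMap.sub_apply, ty_rename_mul, hj]
      simp only [LinearMap.smul_apply, Module.End.one_apply, Nat.cast_add, add_zero,
        MvPolynomial.smul_eq_C_mul, map_add, map_natCast, map_mul, map_pow]
      ring
  | algebraMap r =>
    refine ⟨0, fun m => ⟨algebraMap ℂ _ r, (fam _).algebraMap_mem r, fun s j g w hw _ => ?_⟩⟩
    simp only [Pi.algebraMap_apply, Module.algebraMap_end_apply, add_zero,
      MvPolynomial.smul_eq_C_mul, map_mul, rename_C]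
    ring
  | add x y hx hy ihx ihy =>
    obtain ⟨k1, h1⟩ := ihx
    obtain ⟨k2, h2⟩ := ihy
    refine ⟨k1 + k2, fun m => ?_⟩
    obtain ⟨x', hx', e1⟩ := h1 m
    obtain ⟨y', hy', e2⟩ := h2 m
    refine ⟨(fun _ => LinearMap.mulLeft ℂ (rename Sum.inl h ^ k2)) * x' +
      (fun _ => LinearMap.mulLeft ℂ (rename Sum.inl h ^ k1)) * y',
      (fam _).add_mem ((fam _).mul_mem (fam_const (weylS_mulLeft _)) hx')
        ((fam _).mul_mem (fam_const (weylS_mulLeft _)) hy'), fun s j g w hw hj => ?_⟩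
    rw [Pi.add_apply, LinearMap.add_apply, Pi.mul_apply, Pi.mul_apply, Module.End.mul_apply,
      Module.End.mul_apply, e1 s j g w hw hj, e2 s j g w hw hj,
      LinearMap.mulLeft_apply, LinearMap.mulLeft_apply, Pi.add_apply, LinearMap.add_apply]
    simp only [map_mul, map_add, map_pow]
    ring
  | mul x y hx hy ihx ihy =>
    obtain ⟨k1, h1⟩ := ihx
    obtain ⟨k2, h2⟩ := ihy
    refine ⟨k2 + k1, fun m => ?_⟩
    obtain ⟨y', hy', e2⟩ := h2 m
    obtain ⟨x', hx', e1⟩ := h1 (m + k2)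
    refine ⟨x' * y', (fam _).mul_mem hx' hy', fun s j g w hw hj => ?_⟩
    rw [Pi.mul_apply, Module.End.mul_apply, e2 s j g w hw hj, e1 s j _ w hw hj, Pi.mul_apply,
      Module.End.mul_apply, add_assoc]

/-! ### The module of the functional equation -/

/-- `m(s) = P(s) (F ^ (s + 1))` for some `P` -/
def JJ {τ : Type} (F : MvPolynomial τ ℂ) (m : ℕ → MvPolynomial τ ℂ) : Prop :=
  ∃ P ∈ fam τ, ∀ s : ℕ, m s = P s (F ^ (s + 1))

section JJ

variable {τ : Type} {F : MvPolynomial τ ℂ}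

theorem JJ.add {m n : ℕ → MvPolynomial τ ℂ} (hm : JJ F m) (hn : JJ F n) :
    JJ F (fun s => m s + n s) := by
  obtain ⟨P, hP, h1⟩ := hm
  obtain ⟨Q, hQ, h2⟩ := hn
  exact ⟨P + Q, (fam _).add_mem hP hQ, fun s => by
    beta_reduce
    rw [h1, h2, Pi.add_apply, LinearMap.add_apply]⟩

theorem JJ.sub {m n : ℕ → MvPolynomial τ ℂ} (hm : JJ F m) (hn : JJ F n) :
    JJ F (fun s => m s - n s) := by
  obtain ⟨P, hP, h1⟩ := hm
  obtain ⟨Q, hQ, h2⟩ := hn
  exact ⟨P - Q, (fam _).sub_mem hP hQ, fun s => by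
    beta_reduce
    rw [h1, h2, Pi.sub_apply, LinearMap.sub_apply]⟩

theorem JJ.op {m : ℕ → MvPolynomial τ ℂ} (hm : JJ F m)
    {A : ℕ → Module.End ℂ (MvPolynomial τ ℂ)} (hA : A ∈ fam τ) : JJ F (fun s => A s (m s)) := by
  obtain ⟨P, hP, h1⟩ := hm
  exact ⟨A * P, (fam _).mul_mem hA hP, fun s => by
    beta_reduce
    rw [h1, Pi.mul_apply, Module.End.mul_apply]⟩

theorem JJ.mul {m : ℕ → MvPolynomial τ ℂ} (hm : JJ F m) (a : MvPolynomial τ ℂ) :
    JJ F (fun s => a * m s) := hm.op (fam_const (weylS_mulLeft a))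

theorem JJ.congr {m n : ℕ → MvPolynomial τ ℂ} (hm : JJ F m) (h : ∀ s, m s = n s) : JJ F n :=
  (funext h : m = n) ▸ hm

theorem JJ.poly {m : ℕ → MvPolynomial τ ℂ} (hm : JJ F m) (b : Polynomial ℂ) :
    JJ F (fun s => C (b.eval (s : ℂ)) * m s) := by
  refine (hm.op (fam_poly τ b)).congr fun s => ?_
  rw [LinearMap.smul_apply, Module.End.one_apply, MvPolynomial.smul_eq_C_mul]

theorem JJ.deriv (D : Derivation ℂ (MvPolynomial τ ℂ) (MvPolynomial τ ℂ)) [Finite τ] :
    JJ F (fun s => ((s + 1 : ℕ) : MvPolynomial τ ℂ) * F ^ s * D F) := by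
  refine ⟨_, fam_const (weylS_derivation D), fun s => ?_⟩
  rw [Derivation.coeFn_coe, Derivation.leibniz_pow, Nat.add_sub_cancel]
  simp only [smul_eq_mul, nsmul_eq_mul]
  ring

theorem JJ.zero : JJ F fun _ => 0 := ⟨0, (fam _).zero_mem, fun s => by simp⟩

theorem isBFunction_of_JJ {b : Polynomial ℂ} (h : JJ F fun s => C (b.eval (s : ℂ)) * F ^ s) :
    IsBFunction F b := (isBFunction_iff F b).2 h

end JJ

/-- the function `(s + 1) F ^ s` -/
noncomputable def ee {τ : Type} (F : MvPolynomial τ ℂ) (s : ℕ) : MvPolynomial τ ℂ :=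
  ((s + 1 : ℕ) : MvPolynomial τ ℂ) * F ^ s

theorem pderiv_inr_zz (h : MvPolynomial σ ℂ) {k : Fin 3} (hk : k ≠ 2) :
    pderiv (Sum.inr k) (zz h) = 0 := by
  rw [zz, map_sub, Derivation.leibniz, pderiv_inr_rename, pderiv_X_of_ne (by simpa using hk.symm),
    pderiv_one]
  simp

theorem pderiv_u (f h : MvPolynomial σ ℂ) :
    pderiv (Sum.inr 0) (FF f h) = rename Sum.inl f := by
  rw [FF_eq, map_add, Derivation.leibniz, Derivation.leibniz, pderiv_inr_rename,
    pderiv_inr_zz h (by decide), pderiv_X_self, pderiv_X_of_ne (by simp)]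
  simp

theorem pderiv_y (f h : MvPolynomial σ ℂ) :
    pderiv (Sum.inr 1) (FF f h) = zz h := by
  rw [FF_eq, map_add, Derivation.leibniz, Derivation.leibniz, pderiv_inr_rename,
    pderiv_inr_zz h (by decide), pderiv_X_self, pderiv_X_of_ne (by simp)]
  simp

theorem pderiv_t (f h : MvPolynomial σ ℂ) :
    pderiv (Sum.inr 2) (FF f h) = X (Sum.inr 1) * rename Sum.inl h := by
  rw [FF_eq, zz, map_add, Derivation.leibniz, Derivation.leibniz, pderiv_inr_rename, map_sub,
    Derivation.leibniz, pderiv_inr_rename, pderiv_X_self, pderiv_X_of_ne (by simp),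
    pderiv_X_of_ne (by simp), pderiv_one]
  simp

section main

variable [Finite σ] (f h : MvPolynomial σ ℂ)

theorem JJ_z : JJ (FF f h) fun s => zz h * ee (FF f h) s := by
  refine (JJ.deriv (F := FF f h) (pderiv (Sum.inr 1))).congr fun s => ?_
  rw [pderiv_y, ee]
  ring

theorem JJ_f : JJ (FF f h) fun s => rename Sum.inl f * ee (FF f h) s := by
  refine (JJ.deriv (F := FF f h) (pderiv (Sum.inr 0))).congr fun s => ?_
  rw [pderiv_u, ee]
  ring

theorem JJ_yh : JJ (FF f h) fun s =>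
    (X (Sum.inr 1) * rename Sum.inl h) * ee (FF f h) s := by
  refine (JJ.deriv (F := FF f h) (pderiv (Sum.inr 2))).congr fun s => ?_
  rw [pderiv_t, ee]
  ring

theorem JJ_y : JJ (FF f h) fun s => X (Sum.inr 1) * ee (FF f h) s := by
  refine (((JJ_yh f h).mul (X (Sum.inr 2))).sub ((JJ_z f h).mul (X (Sum.inr 1)))).congr
    fun s => ?_
  rw [zz]
  ring

theorem JJ_th : JJ (FF f h) fun s => ty σ (ee (FF f h) s) + ee (FF f h) s := by
  refine ((JJ_y f h).op (fam_const (weylS_pderiv (Sum.inr 1)))).congr fun s => ?_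
  rw [Derivation.coeFn_coe, Derivation.leibniz, pderiv_X_self, ty_apply]
  simp only [smul_eq_mul, mul_one]

theorem exists_op (b : Polynomial ℂ) :
    ∃ R ∈ fam (σ ⊕ Fin 3), (∀ (M j : ℕ) (v : MvPolynomial (σ ⊕ Fin 3) ℂ),
      ty σ v = (j : ℂ) • v → R M v = b.eval ((M : ℂ) - j) • v) ∧
      JJ (FF f h) fun s => C (b.eval ((s : ℂ) + 1)) * ee (FF f h) s - R s (ee (FF f h) s) := by
  induction b using Polynomial.induction_on with
  | C a =>
    refine ⟨algebraMap ℂ _ a, (fam _).algebraMap_mem a, fun M j v _ => ?_, ?_⟩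
    · simp [Module.algebraMap_end_apply]
    · refine JJ.zero.congr fun s => ?_
      simp [Module.algebraMap_end_apply, MvPolynomial.smul_eq_C_mul]
  | add p q hp hq =>
    obtain ⟨x', hx', h1, h1'⟩ := hp
    obtain ⟨y', hy', h2, h2'⟩ := hq
    refine ⟨x' + y', (fam _).add_mem hx' hy', fun M j v hv => ?_, ?_⟩
    · rw [Pi.add_apply, LinearMap.add_apply, h1 M j v hv, h2 M j v hv, ← add_smul,
        Polynomial.eval_add]
    · refine (h1'.add h2').congr fun s => ?_
      rw [Pi.add_apply, LinearMap.add_apply, Polynomial.eval_add, map_add]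
      ring
  | monomial n a hn =>
    obtain ⟨R, hR, h1, h1'⟩ := hn
    have e1 : ∀ z : ℂ, (Polynomial.C a * Polynomial.X ^ (n + 1)).eval z =
        z * (Polynomial.C a * Polynomial.X ^ n).eval z := by
      intro z
      simp only [Polynomial.eval_mul, Polynomial.eval_C, Polynomial.eval_pow, Polynomial.eval_X]
      ring
    set q : Polynomial ℂ := Polynomial.C a * Polynomial.X ^ n with hq
    have hB : ((fun s : ℕ => (s : ℂ) • (1 : Module.End ℂ (MvPolynomial (σ ⊕ Fin 3) ℂ))) -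
        fun _ => ty σ) ∈ fam (σ ⊕ Fin 3) :=
      (fam _).sub_mem (fam_nat _) (fam_const ty_mem)
    refine ⟨((fun s : ℕ => (s : ℂ) • (1 : Module.End ℂ (MvPolynomial (σ ⊕ Fin 3) ℂ))) -
        fun _ => ty σ) * R, (fam _).mul_mem hB hR, fun M j v hv => ?_, ?_⟩
    · rw [Pi.mul_apply, Module.End.mul_apply, h1 M j v hv, map_smul, e1, Pi.sub_apply,
        LinearMap.sub_apply, hv, LinearMap.smul_apply, Module.End.one_apply, ← sub_smul, smul_smul,
        mul_comm]
    · have h2 := h1'.op hB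
      have h3 := (JJ_th f h).poly (q.comp (Polynomial.X + 1))
      refine (h2.add h3).congr fun s => ?_
      rw [e1, Pi.mul_apply, Module.End.mul_apply]
      have e2 : (q.comp (Polynomial.X + 1)).eval (s : ℂ) = q.eval ((s : ℂ) + 1) := by simp
      rw [e2, map_sub]
      generalize R s (ee (FF f h) s) = r
      generalize q.eval ((s : ℂ) + 1) = c
      generalize ee (FF f h) s = v
      simp only [Pi.sub_apply, LinearMap.sub_apply, LinearMap.smul_apply, Module.End.one_apply]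
      rw [← MvPolynomial.smul_eq_C_mul v c, map_smul]
      simp only [MvPolynomial.smul_eq_C_mul, map_mul, map_add, map_one, map_natCast]
      ring

/-- **The functional equation of `u f + y (t h - 1)`.** -/
theorem isBFunction_FF {f h : MvPolynomial σ ℂ} {b : Polynomial ℂ} (hb : IsBFunctionOn f h b) :
    IsBFunction (FF f h) ((Polynomial.X + 1) * b.comp (Polynomial.X + 1)) := by
  rw [isBFunctionOn_iff] at hb
  obtain ⟨N, P, hP, hb⟩ := hb
  obtain ⟨k, hk⟩ := fam_lift h hP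
  obtain ⟨P', hP', hk⟩ := hk 0
  obtain ⟨R, hR, hR1, hR2⟩ := exists_op f h b
  have hexp : ∀ s : ℕ, (FF f h) ^ s = ∑ m ∈ Finset.range (s + 1),
      (s.choose m : ℂ) • (rename Sum.inl (f ^ m) *
        (X (Sum.inr 0) ^ m * (X (Sum.inr 1) * zz h) ^ (s - m))) := by
    intro s
    rw [FF_eq, add_pow]
    refine Finset.sum_congr rfl fun m _ => ?_
    rw [MvPolynomial.smul_eq_C_mul, map_natCast, map_pow]
    ring
  have hw1 : ∀ (m j : ℕ) (i : σ), dd h i (X (Sum.inr 0) ^ m * (X (Sum.inr 1) * zz h) ^ j) = 0 := by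
    intro m j i
    rw [Derivation.leibniz, Derivation.leibniz_pow, Derivation.leibniz_pow, Derivation.leibniz,
      dd_zz, dd_X h i (by decide), dd_X h i (by decide)]
    simp
  have hw2 : ∀ m j : ℕ, ty σ (X (Sum.inr 0) ^ m * (X (Sum.inr 1) * zz h) ^ j) =
      (j : ℂ) • (X (Sum.inr 0) ^ m * (X (Sum.inr 1) * zz h) ^ j) := by
    intro m j
    rw [ty_apply, Derivation.leibniz, Derivation.leibniz_pow, Derivation.leibniz_pow,
      Derivation.leibniz, pderiv_inr_zz h (by decide), pderiv_X_self, pderiv_X_of_ne (by simp)]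
    rcases j with _ | j
    · simp
    · simp only [smul_eq_mul, nsmul_eq_mul, mul_one, mul_zero, zero_add, add_zero,
        Nat.add_sub_cancel, MvPolynomial.smul_eq_C_mul, map_natCast]
      ring
  have key : JJ (FF f h) fun s => rename Sum.inl h ^ (k + N) * R s (ee (FF f h) s) := by
    refine ((JJ_f f h).op hP').congr fun s => ?_
    have e1 : rename Sum.inl f * ee (FF f h) s = ∑ m ∈ Finset.range (s + 1),
        (((s : ℂ) + 1) * (s.choose m : ℂ)) • (rename Sum.inl (h ^ 0 * f ^ (m + 1)) *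
        (X (Sum.inr 0) ^ m * (X (Sum.inr 1) * zz h) ^ (s - m))) := by
      rw [ee, hexp, Finset.mul_sum, Finset.mul_sum]
      refine Finset.sum_congr rfl fun m _ => ?_
      simp only [MvPolynomial.smul_eq_C_mul, map_mul, map_pow, map_add, map_one, map_natCast,
        Nat.cast_add, Nat.cast_one, pow_zero]
      ring
    have e2 : ee (FF f h) s = ∑ m ∈ Finset.range (s + 1),
        (((s : ℂ) + 1) * (s.choose m : ℂ)) • (rename Sum.inl (f ^ m) *
        (X (Sum.inr 0) ^ m * (X (Sum.inr 1) * zz h) ^ (s - m))) := by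
      rw [ee, hexp, Finset.mul_sum]
      refine Finset.sum_congr rfl fun m _ => ?_
      simp only [MvPolynomial.smul_eq_C_mul, map_mul, map_pow, map_add, map_one, map_natCast,
        Nat.cast_add, Nat.cast_one]
      ring
    rw [e1, e2, map_sum, map_sum, Finset.mul_sum]
    refine Finset.sum_congr rfl fun m hm => ?_
    have hms : m ≤ s := by simpa [Nat.lt_succ_iff] using hm
    have h3 := hk m (s - m) (f ^ (m + 1)) _ (hw1 m (s - m)) (hw2 m (s - m))
    rw [Nat.add_sub_cancel' hms] at h3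
    have h4 := hR1 s (s - m) (rename Sum.inl (f ^ m) *
        (X (Sum.inr 0) ^ m * (X (Sum.inr 1) * zz h) ^ (s - m)))
        (by rw [ty_rename_mul, hw2, mul_smul_comm])
    rw [map_smul, map_smul, h3, h4, ← hb m, Nat.cast_sub hms, sub_sub_cancel]
    simp only [MvPolynomial.smul_eq_C_mul, map_mul, map_pow, rename_C, zero_add]
    ring
  have key2 : JJ (FF f h) fun s => rename Sum.inl h ^ (k + N) *
      (C (b.eval ((s : ℂ) + 1)) * ee (FF f h) s) := by
    refine (key.add (hR2.mul (rename Sum.inl h ^ (k + N)))).congr fun s => ?_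
    ring
  have key3 : JJ (FF f h) fun s => zz h * (C (b.eval ((s : ℂ) + 1)) * ee (FF f h) s) := by
    refine ((JJ_z f h).poly (b.comp (Polynomial.X + 1))).congr fun s => ?_
    have e2 : (b.comp (Polynomial.X + 1)).eval (s : ℂ) = b.eval ((s : ℂ) + 1) := by simp
    rw [e2]
    ring
  obtain ⟨q, hq⟩ : zz h ∣ (X (Sum.inr 2) * rename Sum.inl h) ^ (k + N) - 1 := by
    have h5 := sub_dvd_pow_sub_pow (X (Sum.inr 2) * rename Sum.inl h :
      MvPolynomial (σ ⊕ Fin 3) ℂ) 1 (k + N)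
    rwa [one_pow] at h5
  apply isBFunction_of_JJ
  refine ((key2.mul (X (Sum.inr 2) ^ (k + N))).sub (key3.mul q)).congr fun s => ?_
  have e3 : ((Polynomial.X + 1) * b.comp (Polynomial.X + 1)).eval (s : ℂ) =
      ((s : ℂ) + 1) * b.eval ((s : ℂ) + 1) := by simp
  rw [e3, ee]
  simp only [map_mul, map_add, map_one, map_natCast, Nat.cast_add, Nat.cast_one]
  rw [mul_pow] at hq
  linear_combination (C (b.eval ((s : ℂ) + 1)) * (((s : MvPolynomial (σ ⊕ Fin 3) ℂ) + 1) *
    (FF f h) ^ s)) * hq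

end main

end step

end Pool.Agent.Q221.Loc
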