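import Pool.Agent.Q221.Loc.BF
import Pool.Agent.W206.CU.Pole
import Mathlib

/-!
# Balls, local functional equations
-/

set_option autoImplicit false

namespace Pool.Agent.Q221.Loc

open MvPolynomial Pool.Agent.W206.CU
open Pool.Agent.H628R4.TP (weylS IsBFunction)

/-! ### `f(c + q x)` -/

section

variable {V : Type}

/-- `f(c + q x)` -/
noncomputable def sh (c : V → ℤ) (q : ℤ) (f : MvPolynomial V ℤ) : MvPolynomial V ℤ :=
  aeval (fun i => C (c i) + C q * X i) f

theorem aeval_sh {A : Type} [CommRing A] (c : V → ℤ) (q : ℤ) (f : MvPolynomial V ℤ) (x : V → A) :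
    aeval x (sh c q f) = aeval (fun i => (c i : A) + (q : A) * x i) f := by
  have h : ((aeval x : MvPolynomial V ℤ →ₐ[ℤ] A).comp
      (aeval (fun i => C (c i) + C q * X i) : MvPolynomial V ℤ →ₐ[ℤ] MvPolynomial V ℤ)) =
      aeval (fun i => (c i : A) + (q : A) * x i) := by
    apply MvPolynomial.algHom_ext
    intro i
    simp
  exact DFunLike.congr_fun h f

theorem sh_sh (c c' : V → ℤ) (q q' : ℤ) (f : MvPolynomial V ℤ) :
    sh c' q' (sh c q f) = sh (fun i => c i + q * c' i) (q * q') f := by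
  have h : ((aeval (fun i => C (c' i) + C q' * X i) :
      MvPolynomial V ℤ →ₐ[ℤ] MvPolynomial V ℤ).comp
      (aeval (fun i => C (c i) + C q * X i) : MvPolynomial V ℤ →ₐ[ℤ] MvPolynomial V ℤ)) =
      aeval (fun i => C (c i + q * c' i) + C (q * q') * X i) := by
    apply MvPolynomial.algHom_ext
    intro i
    simp only [AlgHom.comp_apply, aeval_X, map_add, map_mul, algHom_C, algebraMap_eq]
    ring
  exact DFunLike.congr_fun h f

theorem sh_zero_one (f : MvPolynomial V ℤ) : sh (fun _ => 0) 1 f = f := by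
  unfold sh
  simp

/-- the Taylor expansion -/
theorem sh_taylor (c : V → ℤ) (q : ℤ) (f : MvPolynomial V ℤ) :
    ∃ R : MvPolynomial V ℤ, sh c q f = C (eval c f) + C q * R := by
  induction f using MvPolynomial.induction_on with
  | C a => exact ⟨0, by simp [sh]⟩
  | add f g hf hg =>
    obtain ⟨R, hR⟩ := hf
    obtain ⟨S, hS⟩ := hg
    refine ⟨R + S, ?_⟩
    have : sh c q (f + g) = sh c q f + sh c q g := map_add _ _ _
    rw [this, hR, hS, map_add, map_add]
    ring
  | mul_X f i hf =>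
    obtain ⟨R, hR⟩ := hf
    refine ⟨C (eval c f) * X i + R * (C (c i) + C q * X i), ?_⟩
    have : sh c q (f * X i) = sh c q f * (C (c i) + C q * X i) := by
      unfold sh
      rw [map_mul, aeval_X]
    rw [this, hR, map_mul, eval_X, map_mul]
    ring

/-- the substitution `x ↦ c + q x` over the complex numbers -/
noncomputable def shC (c : V → ℂ) (q : ℂ) (hq : q ≠ 0) :
    MvPolynomial V ℂ ≃ₐ[ℂ] MvPolynomial V ℂ :=
  AlgEquiv.ofAlgHom (aeval (fun i => C (c i) + C q * X i))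
    (aeval (fun i => C q⁻¹ * (X i - C (c i))))
    (by
      apply MvPolynomial.algHom_ext
      intro i
      simp only [AlgHom.comp_apply, aeval_X, map_sub, map_mul, algHom_C, algebraMap_eq,
        AlgHom.id_apply, add_sub_cancel_left]
      rw [← mul_assoc, ← C_mul, inv_mul_cancel₀ hq, C_1, one_mul])
    (by
      apply MvPolynomial.algHom_ext
      intro i
      simp only [AlgHom.comp_apply, aeval_X, map_add, map_mul, algHom_C, algebraMap_eq,
        AlgHom.id_apply]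
      rw [← mul_assoc, ← C_mul, mul_inv_cancel₀ hq, C_1, one_mul]
      ring)

theorem map_sh (c : V → ℤ) (q : ℤ) (hq : q ≠ 0) (f : MvPolynomial V ℤ) :
    map (Int.castRingHom ℂ) (sh c q f) =
      shC (fun i => (c i : ℂ)) (q : ℂ) (by exact_mod_cast hq) (map (Int.castRingHom ℂ) f) := by
  have hX : ∀ i, shC (fun i => (c i : ℂ)) (q : ℂ) (by exact_mod_cast hq) (X i) =
      C ((c i : ℤ) : ℂ) + C (q : ℂ) * X i := fun i => by
    rw [shC, AlgEquiv.ofAlgHom_apply, aeval_X]
  induction f using MvPolynomial.induction_on with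
  | C a =>
    have h1 : sh c q (C a) = C a := by
      unfold sh
      rw [algHom_C, algebraMap_eq]
    rw [h1, map_C]
    exact ((shC (fun i => (c i : ℂ)) (q : ℂ) (by exact_mod_cast hq)).commutes _).symm
  | add f g hf hg =>
    have : sh c q (f + g) = sh c q f + sh c q g := map_add _ _ _
    rw [this, map_add, hf, hg, map_add, map_add]
  | mul_X f i hf =>
    have : sh c q (f * X i) = sh c q f * (C (c i) + C q * X i) := by
      unfold sh
      rw [map_mul, aeval_X]
    rw [this, map_mul, hf, map_mul, map_mul, map_X, hX]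
    congr 1
    rw [map_add, map_mul, map_C, map_C, map_X]
    rfl

theorem sh_ne_zero {c : V → ℤ} {q : ℤ} (hq : q ≠ 0) {f : MvPolynomial V ℤ} (hf : f ≠ 0) :
    sh c q f ≠ 0 := by
  intro h
  have h1 := map_sh c q hq f
  rw [h, map_zero] at h1
  have h2 := (map_eq_zero_iff _ (AlgEquiv.injective _)).1 h1.symm
  apply hf
  exact map_injective (Int.castRingHom ℂ) (RingHom.injective_int _) (by rw [h2, map_zero])

end

/-! ### Functional equations on open sets -/

section

variable {V W : Type}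

theorem isBFunctionOn_iso [Finite V] [Finite W] (e : MvPolynomial V ℂ ≃ₐ[ℂ] MvPolynomial W ℂ)
    {f h : MvPolynomial V ℂ} {b : Polynomial ℂ} (hb : IsBFunctionOn f h b) :
    IsBFunctionOn (e f) (e h) b := by
  rw [isBFunctionOn_iff] at hb ⊢
  obtain ⟨N, P, hP, hb⟩ := hb
  refine ⟨N, _, fam_conj e hP, fun M => ?_⟩
  simp only [LinearMap.comp_apply, LinearEquiv.coe_coe, AlgEquiv.toLinearEquiv_apply, map_pow,
    AlgEquiv.symm_apply_apply]
  have h1 : ∀ c : ℂ, e (C c) = C c := fun c => e.commutes c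
  rw [← hb M, map_mul, map_mul, map_pow, map_pow, h1]

theorem isBFunctionOn_one {f : MvPolynomial V ℂ} {b : Polynomial ℂ} :
    IsBFunctionOn f 1 b ↔ IsBFunction f b := by
  rw [isBFunctionOn_iff, isBFunction_iff]
  simp only [one_pow, one_mul]
  constructor
  · rintro ⟨_, P, hP, h⟩
    exact ⟨P, hP, h⟩
  · rintro ⟨P, hP, h⟩
    exact ⟨0, P, hP, h⟩

theorem IsBFunctionOn.mulLeft {f h : MvPolynomial V ℂ} {b : Polynomial ℂ}
    (hb : IsBFunctionOn f h b) (h' : MvPolynomial V ℂ) : IsBFunctionOn f (h' * h) b := by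
  rw [isBFunctionOn_iff] at hb ⊢
  obtain ⟨N, P, hP, hb⟩ := hb
  refine ⟨N, (fun _ => LinearMap.mulLeft ℂ (h' ^ N)) * P,
    (fam _).mul_mem (fam_const (weylS_mulLeft _)) hP, fun s => ?_⟩
  rw [Pi.mul_apply, Module.End.mul_apply, LinearMap.mulLeft_apply, ← hb s, mul_pow]
  ring

theorem IsBFunctionOn.of_C_mul {f h : MvPolynomial V ℂ} {b : Polynomial ℂ} {c : ℂ} (hc : c ≠ 0)
    (hb : IsBFunctionOn f (C c * h) b) : IsBFunctionOn f h b := by
  rw [isBFunctionOn_iff] at hb ⊢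
  obtain ⟨N, P, hP, hb⟩ := hb
  refine ⟨N, (fun _ => LinearMap.mulLeft ℂ (C (c⁻¹) ^ N)) * P,
    (fam _).mul_mem (fam_const (weylS_mulLeft _)) hP, fun s => ?_⟩
  rw [Pi.mul_apply, Module.End.mul_apply, LinearMap.mulLeft_apply, ← hb s, mul_pow, mul_assoc,
    ← mul_assoc (C c⁻¹ ^ N), ← mul_pow, ← C_mul, inv_mul_cancel₀ hc, C_1, one_pow, one_mul]

theorem IsBFunctionOn.add {f h : MvPolynomial V ℂ} {b b' : Polynomial ℂ}
    (hb : IsBFunctionOn f h b) (hb' : IsBFunctionOn f h b') : IsBFunctionOn f h (b + b') := by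
  rw [isBFunctionOn_iff] at hb hb' ⊢
  obtain ⟨N, P, hP, hb⟩ := hb
  obtain ⟨M, Q, hQ, hb'⟩ := hb'
  refine ⟨N + M, (fun _ => LinearMap.mulLeft ℂ (h ^ M)) * P +
    (fun _ => LinearMap.mulLeft ℂ (h ^ N)) * Q,
    (fam _).add_mem ((fam _).mul_mem (fam_const (weylS_mulLeft _)) hP)
    ((fam _).mul_mem (fam_const (weylS_mulLeft _)) hQ), fun s => ?_⟩
  rw [Pi.add_apply, LinearMap.add_apply, Pi.mul_apply, Pi.mul_apply, Module.End.mul_apply,
    Module.End.mul_apply, LinearMap.mulLeft_apply, LinearMap.mulLeft_apply, ← hb s, ← hb' s,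
    Polynomial.eval_add, C_add, pow_add]
  ring

theorem IsBFunctionOn.mul {f h : MvPolynomial V ℂ} {b : Polynomial ℂ}
    (hb : IsBFunctionOn f h b) (q : Polynomial ℂ) : IsBFunctionOn f h (q * b) := by
  rw [isBFunctionOn_iff] at hb ⊢
  obtain ⟨N, P, hP, hb⟩ := hb
  refine ⟨N, (fun s : ℕ => (q.eval (s : ℂ)) • (1 : Module.End ℂ (MvPolynomial V ℂ))) * P,
    (fam _).mul_mem (fam_poly _ _) hP, fun s => ?_⟩
  rw [Pi.mul_apply, Module.End.mul_apply, LinearMap.smul_apply, Module.End.one_apply, ← hb s,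
    Polynomial.eval_mul, C_mul, MvPolynomial.smul_eq_C_mul]
  ring

theorem IsBFunctionOn.zero {f h : MvPolynomial V ℂ} : IsBFunctionOn f h 0 := by
  rw [isBFunctionOn_iff]
  exact ⟨0, 0, (fam _).zero_mem, fun s => by simp⟩

end

/-! ### Local functional equations at a point -/

section

variable {A : Type} [CommRing A] [IsDomain A] {V : Type}

/-- `b` is a `b`-function of `f` at the point `a` with coordinates in `A` (for us `ℤ` or the
`p`-adic integers): it is one on an open set `h ≠ 0` with `h(a) ≠ 0`. -/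
def LocAt {A : Type} [CommRing A] {V : Type} (f : MvPolynomial V ℤ) (a : V → A)
    (b : Polynomial ℂ) : Prop :=
  ∃ h : MvPolynomial V ℤ, (aeval a h : A) ≠ 0 ∧
    IsBFunctionOn (map (Int.castRingHom ℂ) f) (map (Int.castRingHom ℂ) h) b

/-- the ideal of these polynomials -/
def locIdeal (f : MvPolynomial V ℤ) (a : V → A) : Ideal (Polynomial ℂ) where
  carrier := {b | LocAt f a b}
  zero_mem' := ⟨1, by rw [map_one]; exact one_ne_zero, IsBFunctionOn.zero⟩
  add_mem' := by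
    rintro b b' ⟨h, h1, h2⟩ ⟨h', h1', h2'⟩
    refine ⟨h' * h, by rw [map_mul]; exact mul_ne_zero h1' h1, ?_⟩
    rw [map_mul]
    refine (h2.mulLeft _).add ?_
    rw [mul_comm]
    exact h2'.mulLeft _
  smul_mem' := by
    rintro q b ⟨h, h1, h2⟩
    exact ⟨h, h1, h2.mul q⟩

/-- There is a local `b`-function dividing all others. -/
theorem exists_gen (f : MvPolynomial V ℤ) (a : V → A) :
    ∃ b₀, LocAt f a b₀ ∧ ∀ b, LocAt f a b → b₀ ∣ b := by
  obtain ⟨b₀, hb₀⟩ := (IsPrincipalIdealRing.principal (locIdeal f a)).principal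
  refine ⟨b₀, ?_, fun b hb => ?_⟩
  · have : b₀ ∈ locIdeal f a := by
      rw [hb₀]
      exact Submodule.mem_span_singleton_self b₀
    exact this
  · have : b ∈ locIdeal f a := hb
    rw [hb₀] at this
    exact Ideal.mem_span_singleton.1 this

end

section

variable {p : ℕ} [hp : Fact p.Prime] {V : Type}

/-- On a small ball around `a` the polynomial `h` is a power of `p` times a polynomial with unit
values. -/
theorem unit_poly (h : MvPolynomial V ℤ) (a : V → ℤ_[p]) (ha : (aeval a h : ℤ_[p]) ≠ 0) :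
    ∃ k₀ : ℕ, ∀ k ≥ k₀, ∀ c : V → ℤ, (∀ i, (p : ℤ_[p]) ^ k ∣ a i - c i) →
      ∃ (v : ℕ) (H : MvPolynomial V ℤ), sh c ((p : ℤ) ^ k) h = C ((p : ℤ) ^ v) * H ∧
        ∀ x : V → ℤ_[p], ‖(aeval x H : ℤ_[p])‖ = 1 := by
  set v : ℕ := (aeval a h : ℤ_[p]).valuation with hv
  refine ⟨v + 1, fun k hk c hc => ?_⟩
  choose y hy using hc
  obtain ⟨R, hR⟩ := sh_taylor c ((p : ℤ) ^ k) h
  have h1 : (aeval a h : ℤ_[p]) = ((eval c h : ℤ) : ℤ_[p]) + (p : ℤ_[p]) ^ k * aeval y R := by
    have h2 := congrArg (aeval y : MvPolynomial V ℤ →ₐ[ℤ] ℤ_[p]) hR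
    rw [aeval_sh, map_add, map_mul, aeval_C, aeval_C] at h2
    have h3 : (fun i => ((c i : ℤ) : ℤ_[p]) + (((p : ℤ) ^ k : ℤ) : ℤ_[p]) * y i) = a := by
      funext i
      push_cast
      rw [← hy i]
      ring
    rw [h3] at h2
    rw [h2]
    simp
  have hp0 : (0 : ℝ) < p := by exact_mod_cast hp.out.pos
  have hp1 : (1 : ℝ) < p := by exact_mod_cast hp.out.one_lt
  have hna : ‖(aeval a h : ℤ_[p])‖ = (p : ℝ) ^ (-(v : ℤ)) := PadicInt.norm_eq_zpow_neg_valuation ha
  have hnk : ‖(p : ℤ_[p]) ^ k * aeval y R‖ ≤ (p : ℝ) ^ (-(k : ℤ)) := by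
    rw [norm_mul, PadicInt.norm_p_pow]
    exact mul_le_of_le_one_right (by positivity) (PadicInt.norm_le_one _)
  have hlt : (p : ℝ) ^ (-(k : ℤ)) < (p : ℝ) ^ (-(v : ℤ)) := by
    apply zpow_lt_zpow_right₀ hp1
    omega
  have hnc : ‖((eval c h : ℤ) : ℤ_[p])‖ = (p : ℝ) ^ (-(v : ℤ)) := by
    have h2 : ((eval c h : ℤ) : ℤ_[p]) = (aeval a h : ℤ_[p]) + -((p : ℤ_[p]) ^ k * aeval y R) := by
      rw [h1]
      ring
    rw [h2, PadicInt.norm_add_eq_max_of_ne, norm_neg, hna]
    · exact max_eq_left (hnk.trans hlt.le)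
    · rw [norm_neg, hna]
      exact (lt_of_le_of_lt hnk hlt).ne'
  have hdvd : (p : ℤ) ^ v ∣ eval c h := by
    have h2 := PadicInt.norm_int_le_pow_iff_dvd.1 hnc.le
    exact_mod_cast h2
  obtain ⟨u, hu⟩ := hdvd
  have hnu : ‖((u : ℤ) : ℤ_[p])‖ = 1 := by
    rw [hu] at hnc
    push_cast at hnc
    rw [norm_mul, PadicInt.norm_p_pow] at hnc
    have h2 : (0 : ℝ) < (p : ℝ) ^ (-(v : ℤ)) := by positivity
    exact mul_left_cancel₀ h2.ne' (by rw [hnc, mul_one])
  refine ⟨v, C u + C ((p : ℤ) ^ (k - v)) * R, ?_, fun x => ?_⟩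
  · rw [hR, hu, C_mul]
    have h2 : (p : ℤ) ^ k = (p : ℤ) ^ v * (p : ℤ) ^ (k - v) := by
      rw [← pow_add]
      congr 1
      omega
    rw [h2, C_mul]
    ring
  · have h2 : (aeval x (C u + C ((p : ℤ) ^ (k - v)) * R) : ℤ_[p]) =
        ((u : ℤ) : ℤ_[p]) + (p : ℤ_[p]) ^ (k - v) * aeval x R := by
      rw [map_add, map_mul, aeval_C, aeval_C]
      simp
    have h3 : ‖(p : ℤ_[p]) ^ (k - v) * aeval x R‖ < 1 := by
      rw [norm_mul, PadicInt.norm_p_pow]
      have h4 : (p : ℝ) ^ (-((k - v : ℕ) : ℤ)) < 1 := by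
        apply zpow_lt_one_of_neg₀ hp1
        omega
      exact lt_of_le_of_lt (mul_le_of_le_one_right (by positivity) (PadicInt.norm_le_one _)) h4
    rw [h2, PadicInt.norm_add_eq_max_of_ne, hnu]
    · exact max_eq_left h3.le
    · rw [hnu]
      exact h3.ne'

end

end Pool.Agent.Q221.Loc
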