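import Pool.Agent.W206.CU.Cnt
import Pool.Agent.Q221.Loc.BF

/-!
# Numbers of solutions for `u f + y (t h - 1)`
-/

set_option autoImplicit false

namespace Pool.Agent.Q221.Loc

open MvPolynomial Pool.Agent.W206.CU

/-- The number of zeros of `f` in `R ^ σ` at which `h` is a unit. -/
noncomputable def numOn (R : Type) [CommRing R] {σ : Type} (f h : MvPolynomial σ ℤ) : ℕ :=
  Nat.card {x : σ → R // aeval x f = 0 ∧ IsUnit (aeval x h : R)}

section general

variable {R S : Type} [CommRing R] [CommRing S] (π : R →+* S)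

theorem pair_count [Finite R] (hmin : ∀ y : R, y ≠ 0 → ∀ c : R, π c = 0 → ∃ z, c = y * z)
    {a z : R} (h : a ≠ 0 ∨ z ≠ 0) :
    Nat.card {q : R × R // π (q.1 * a + q.2 * z) = 0} =
      Nat.card {c : R // π c = 0} * Nat.card {q : R × R // q.1 * a + q.2 * z = 0} := by
  classical
  have := Fintype.ofFinite R
  rcases h with h | h
  · have e1 : Nat.card {q : R × R // π (q.1 * a + q.2 * z) = 0} =
        Nat.card {q : R × R // π (q.1 * z + a * q.2) = 0} :=
      Nat.card_congr ((Equiv.prodComm R R).subtypeEquiv fun q => by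
        rw [Equiv.prodComm_apply, Prod.fst_swap, Prod.snd_swap, add_comm, mul_comm a])
    have e2 : Nat.card {q : R × R // q.1 * a + q.2 * z = 0} =
        Nat.card {q : R × R // q.1 * z + a * q.2 = 0} :=
      Nat.card_congr ((Equiv.prodComm R R).subtypeEquiv fun q => by
        rw [Equiv.prodComm_apply, Prod.fst_swap, Prod.snd_swap, add_comm, mul_comm a])
    rw [e1, e2, natCard_prod_sum fun (y : R) (u : R) => π (y * z + a * u) = 0,
      natCard_prod_sum fun (y : R) (u : R) => y * z + a * u = 0, Finset.mul_sum]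
    exact Finset.sum_congr rfl fun y _ => key_count π hmin h (y * z)
  · have e1 : Nat.card {q : R × R // π (q.1 * a + q.2 * z) = 0} =
        Nat.card {q : R × R // π (q.1 * a + z * q.2) = 0} := by
      simp only [mul_comm z]
    have e2 : Nat.card {q : R × R // q.1 * a + q.2 * z = 0} =
        Nat.card {q : R × R // q.1 * a + z * q.2 = 0} := by
      simp only [mul_comm z]
    rw [e1, e2, natCard_prod_sum fun (u : R) (y : R) => π (u * a + z * y) = 0,
      natCard_prod_sum fun (u : R) (y : R) => u * a + z * y = 0, Finset.mul_sum]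
    exact Finset.sum_congr rfl fun u _ => key_count π hmin h (u * a)

/-- the coordinates `(x, t), (u, y)` -/
def coord (σ R : Type) : ((σ → R) × R) × (R × R) ≃ (σ ⊕ Fin 3 → R) where
  toFun q := Sum.elim q.1.1 ![q.2.1, q.2.2, q.1.2]
  invFun x := ((fun i => x (Sum.inl i), x (Sum.inr 2)), (x (Sum.inr 0), x (Sum.inr 1)))
  left_inv q := rfl
  right_inv x := by
    funext i
    rcases i with i | i
    · rfl
    · fin_cases i <;> rfl

theorem aeval_coord {σ : Type} (f h : MvPolynomial σ ℤ) (q : ((σ → R) × R) × (R × R)) :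
    aeval (coord σ R q) (FF f h) =
      q.2.1 * aeval q.1.1 f + q.2.2 * (q.1.2 * aeval q.1.1 h - 1) := by
  have h1 : ∀ g : MvPolynomial σ ℤ, aeval (coord σ R q) (rename Sum.inl g) = aeval q.1.1 g :=
    fun g => aeval_sum_rename _ _ g
  rw [FF, map_add, map_mul, map_mul, map_sub, map_mul, aeval_X, aeval_X, aeval_X, h1, h1, map_one]
  rfl

/-- The number of zeros of `u f + y (t h - 1)`. -/
theorem count_FF [Finite R] (hmin : ∀ y : R, y ≠ 0 → ∀ c : R, π c = 0 → ∃ z, c = y * z)
    {σ : Type} [Finite σ] (f h : MvPolynomial σ ℤ) :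
    Nat.card {c : R // π c = 0} * numIn R (FF f h) + Nat.card R ^ 2 * numOn R f h =
      numIn' π (FF f h) + Nat.card {c : R // π c = 0} * Nat.card R ^ 2 * numOn R f h := by
  classical
  have := Fintype.ofFinite R
  have := Fintype.ofFinite σ
  have h1 : numIn R (FF f h) = ∑ xt : (σ → R) × R, Nat.card {q : R × R //
      q.1 * aeval xt.1 f + q.2 * (xt.2 * aeval xt.1 h - 1) = 0} := by
    rw [← natCard_prod_sum fun (xt : (σ → R) × R) (q : R × R) =>
      q.1 * aeval xt.1 f + q.2 * (xt.2 * aeval xt.1 h - 1) = 0]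
    refine (Nat.card_congr ((coord σ R).subtypeEquiv fun q => ?_)).symm
    rw [aeval_coord]
  have h2 : numIn' π (FF f h) = ∑ xt : (σ → R) × R, Nat.card {q : R × R //
      π (q.1 * aeval xt.1 f + q.2 * (xt.2 * aeval xt.1 h - 1)) = 0} := by
    rw [← natCard_prod_sum fun (xt : (σ → R) × R) (q : R × R) =>
      π (q.1 * aeval xt.1 f + q.2 * (xt.2 * aeval xt.1 h - 1)) = 0]
    refine (Nat.card_congr ((coord σ R).subtypeEquiv fun q => ?_)).symm
    rw [aeval_coord]
  have h3 : numOn R f h = ∑ xt : (σ → R) × R,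
      if aeval xt.1 f = 0 ∧ xt.2 * aeval xt.1 h - 1 = 0 then 1 else 0 := by
    have e : numOn R f h = Nat.card {xt : (σ → R) × R //
        aeval xt.1 f = 0 ∧ xt.2 * aeval xt.1 h - 1 = 0} := by
      refine Nat.card_congr
        { toFun := fun x => ⟨(x.1, ((x.2.2.unit⁻¹ : Rˣ) : R)), x.2.1, ?_⟩
          invFun := fun xt => ⟨xt.1.1, xt.2.1, ?_⟩
          left_inv := fun x => rfl
          right_inv := ?_ }
      · rw [sub_eq_zero]
        exact x.2.2.val_inv_mul
      · exact IsUnit.of_mul_eq_one xt.1.2 (by rw [mul_comm]; exact sub_eq_zero.1 xt.2.2)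
      · rintro ⟨⟨x, t⟩, hx, ht⟩
        have ht' : t * aeval x h = 1 := sub_eq_zero.1 ht
        simp only [Subtype.mk.injEq, Prod.mk.injEq, true_and]
        have hu : IsUnit (aeval x h : R) := IsUnit.of_mul_eq_one t (by rw [mul_comm]; exact ht')
        have h5 : ((hu.unit⁻¹ : Rˣ) : R) * aeval x h = 1 := hu.val_inv_mul
        exact hu.mul_right_cancel (h5.trans ht'.symm)
    rw [e, Nat.card_eq_fintype_card, Fintype.card_subtype, Finset.card_filter]
  rw [h1, h2, h3, Finset.mul_sum, Finset.mul_sum, Finset.mul_sum, ← Finset.sum_add_distrib,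
    ← Finset.sum_add_distrib]
  refine Finset.sum_congr rfl fun xt _ => ?_
  by_cases hx : aeval xt.1 f = 0 ∧ xt.2 * aeval xt.1 h - 1 = 0
  · rw [if_pos hx, hx.1, hx.2, natCard_all _ (fun q : R × R => by simp),
      natCard_all _ (fun q : R × R => by simp), Nat.card_prod]
    ring
  · rw [if_neg hx, pair_count π hmin (by
      by_contra hcon
      push Not at hcon
      exact hx hcon), mul_zero, mul_zero]

end general

section prime

variable (p : ℕ) [Fact p.Prime]

/-- The density of the zeros of `f` modulo `p ^ k` at which `h` is a unit. -/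
noncomputable def densOn {σ : Type} (f h : MvPolynomial σ ℤ) (k : ℕ) : ℚ :=
  (numOn (ZMod (p ^ k)) f h : ℚ) / ((p : ℚ) ^ k) ^ Nat.card σ

theorem dens_FF {σ : Type} [Finite σ] (f h : MvPolynomial σ ℤ) (k : ℕ) :
    dens p (FF f h) (k + 1) - dens p (FF f h) k / p =
      (1 - 1 / (p : ℚ)) * ((1 / (p : ℚ)) ^ (k + 1) * densOn p f h (k + 1)) := by
  have hp : (p : ℚ) ≠ 0 := by
    exact_mod_cast (Fact.out : p.Prime).ne_zero
  have hc := count_FF (red p k) (red_min p k) f h
  rw [numIn'_eq _ (red_surjective p k), red_card, Nat.card_zmod, Nat.card_sum,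
    Nat.card_fin] at hc
  have h' := congrArg (fun n : ℕ => (n : ℚ)) hc
  push_cast at h'
  rw [dens, dens, densOn, Nat.card_sum, Nat.card_fin]
  generalize (numIn (ZMod (p ^ (k + 1))) (FF f h) : ℚ) = A at *
  generalize (numIn (ZMod (p ^ k)) (FF f h) : ℚ) = B at *
  generalize (numOn (ZMod (p ^ (k + 1))) f h : ℚ) = D at *
  generalize Nat.card σ = n at *
  have hQ : (p : ℚ) ^ k ≠ 0 := pow_ne_zero _ hp
  rw [one_div, inv_pow, pow_succ (p : ℚ) k, mul_pow, mul_pow, pow_add, pow_add]
  rw [pow_succ (p : ℚ) k, pow_add] at h'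
  generalize (p : ℚ) ^ k = Q at *
  have hx : Q ^ n ≠ 0 := pow_ne_zero _ hQ
  have hy : (p : ℚ) ^ n ≠ 0 := pow_ne_zero _ hp
  generalize Q ^ n = x at *
  generalize (p : ℚ) ^ n = y at *
  have h'' : A + Q ^ 2 * p * D = B * (y * p ^ 2) + Q ^ 2 * p ^ 2 * D :=
    mul_left_cancel₀ hp (by linear_combination h')
  field_simp
  linear_combination h''

end prime

end Pool.Agent.Q221.Loc
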