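import Pool.Agent.W206.CU.Zeta2
import Pool.Agent.Q221.Loc.Cnt

/-!
# Igusa's zeta function on a principal open set
-/

set_option autoImplicit false

namespace Pool.Agent.Q221.Loc

open MvPolynomial MeasureTheory Filter Topology Pool.Agent.W206.CU
open Pool.Agent.W427.SMC (igusaZeta)

/-- The integral of `|f(x)| ^ s` over the set of the `x` in `ℤ_p ^ V` at which `h(x)` is a unit, for
the Haar measure of total mass one. -/
noncomputable def igusaOn (p : ℕ) [Fact p.Prime] {V : Type} [Fintype V] (f h : MvPolynomial V ℤ)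
    (s : ℂ) : ℂ :=
  letI : MeasurableSpace (V → ℤ_[p]) := borel _
  haveI : BorelSpace (V → ℤ_[p]) := ⟨rfl⟩
  ∫ x in {x : V → ℤ_[p] | ‖(aeval x h : ℤ_[p])‖ = 1}, ((‖(aeval x f : ℤ_[p])‖ : ℝ) : ℂ) ^ s
    ∂(Measure.addHaarMeasure (⊤ : TopologicalSpace.PositiveCompacts (V → ℤ_[p])))

section measure

variable {p : ℕ} [hp : Fact p.Prime] {V : Type} [Fintype V]

theorem isUnit_iff_pow (M : ℕ) (a : ℤ_[p]) :
    IsUnit (PadicInt.toZModPow (M + 1) a) ↔ ‖a‖ = 1 := by
  constructor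
  · intro h
    by_contra hne
    have h1 : ‖a‖ < 1 := lt_of_le_of_ne (PadicInt.norm_le_one a) hne
    obtain ⟨c, hc⟩ := (PadicInt.norm_lt_one_iff_dvd a).1 h1
    rw [hc, map_mul, map_natCast] at h
    have h2 : IsUnit ((p : ZMod (p ^ (M + 1))) ^ (M + 1)) := (isUnit_of_mul_isUnit_left h).pow _
    have h3 : ((p : ZMod (p ^ (M + 1))) ^ (M + 1)) = 0 := by
      rw [← Nat.cast_pow, ZMod.natCast_self]
    rw [h3] at h2
    have : Fact (1 < p ^ (M + 1)) := ⟨Nat.one_lt_pow (Nat.succ_ne_zero M) hp.out.one_lt⟩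
    exact not_isUnit_zero h2
  · intro h
    exact (PadicInt.isUnit_iff.2 h).map _

variable [MeasurableSpace (V → ℤ_[p])] [BorelSpace (V → ℤ_[p])]

/-- The set where `p ^ M` divides `f` and `h` is a unit. -/
def levOn (f h : MvPolynomial V ℤ) (M : ℕ) : Set (V → ℤ_[p]) :=
  {x | (p : ℤ_[p]) ^ M ∣ aeval x f ∧ ‖(aeval x h : ℤ_[p])‖ = 1}

theorem measurableSet_unit (h : MvPolynomial V ℤ) :
    MeasurableSet {x : V → ℤ_[p] | ‖(aeval x h : ℤ_[p])‖ = 1} :=
  (isClosed_eq (continuous_norm.comp (continuous_aeval_padic h)) continuous_const).measurableSet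

theorem measurableSet_levOn (f h : MvPolynomial V ℤ) (M : ℕ) :
    MeasurableSet (levOn (p := p) f h M) :=
  (measurableSet_lev f M).inter (measurableSet_unit h)

/-- the measures of these sets -/
noncomputable def muOn (p : ℕ) [Fact p.Prime] {V : Type} [Fintype V]
    (f h : MvPolynomial V ℤ) (M : ℕ) : ℝ :=
  letI : MeasurableSpace (V → ℤ_[p]) := borel _
  haveI : BorelSpace (V → ℤ_[p]) := ⟨rfl⟩
  (hm p V (levOn f h M)).toReal

theorem measure_solOn_aux (f h : MvPolynomial V ℤ) (M : ℕ)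
    (hM : ∀ a : ℤ_[p], IsUnit (PadicInt.toZModPow M a) ↔ ‖a‖ = 1) :
    (hm p V (levOn f h M)).toReal = ((densOn p f h M : ℚ) : ℝ) := by
  classical
  have : NeZero (p ^ M) := ⟨pow_ne_zero _ hp.out.ne_zero⟩
  have hsum : ∀ S : Finset (V → ZMod (p ^ M)),
      hm p V (⋃ z ∈ S, fib M z) = S.card * hm p V (fib M 0) := by
    intro S
    rw [measure_biUnion_finset ?_ fun z _ => measurableSet_fib M z]
    · rw [Finset.sum_congr rfl fun z _ => measure_fib_eq M z, Finset.sum_const,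
        nsmul_eq_mul]
    · intro z _ z' _ hne
      rw [Function.onFun, Set.disjoint_left]
      intro x hx hx'
      exact hne (funext fun i => (hx i).symm.trans (hx' i))
  have h1 : hm p V (⋃ z ∈ (Finset.univ : Finset (V → ZMod (p ^ M))), fib M z) =
      1 := by
    have : (⋃ z ∈ (Finset.univ : Finset (V → ZMod (p ^ M))), fib (p := p) M z) =
        Set.univ := by
      ext x
      simp only [Finset.mem_univ, Set.iUnion_true, Set.mem_iUnion, Set.mem_univ, iff_true]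
      exact ⟨fun i => PadicInt.toZModPow M (x i), fun i => rfl⟩
    rw [this, measure_univ]
  have h2 : levOn (p := p) f h M =
      ⋃ z ∈ (Finset.univ.filter fun z : V → ZMod (p ^ M) =>
        aeval z f = 0 ∧ IsUnit (aeval z h)), fib M z := by
    ext x
    simp only [levOn, Set.mem_ofPred_eq, dvd_iff, ← hM, toZModPow_aeval,
      Finset.mem_filter, Finset.mem_univ, true_and, Set.mem_iUnion, exists_prop]
    constructor
    · intro h
      exact ⟨_, h, fun i => rfl⟩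
    · rintro ⟨z, hz, hx⟩
      have : (fun i => PadicInt.toZModPow M (x i)) = z := funext hx
      rw [this]
      exact hz
  rw [hsum] at h1
  rw [h2, hsum, ENNReal.toReal_mul]
  have h3 := congrArg ENNReal.toReal h1
  rw [ENNReal.toReal_mul] at h3
  simp only [ENNReal.toReal_natCast, ENNReal.toReal_one, Finset.card_univ, Fintype.card_fun,
    ZMod.card] at h3
  rw [ENNReal.toReal_natCast, densOn, numOn, Nat.card_eq_fintype_card, Fintype.card_subtype,
    Nat.card_eq_fintype_card]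
  push_cast at h3 ⊢
  rw [eq_div_iff (pow_ne_zero _ (pow_ne_zero _ (by exact_mod_cast hp.out.ne_zero)))]
  linear_combination ((Finset.univ.filter fun z : V → ZMod (p ^ M) =>
    aeval z f = 0 ∧ IsUnit (aeval z h)).card : ℝ) * h3

theorem measure_solOn (f h : MvPolynomial V ℤ) (M : ℕ) :
    (hm p V (levOn f h (M + 1))).toReal = ((densOn p f h (M + 1) : ℚ) : ℝ) :=
  measure_solOn_aux f h (M + 1) (isUnit_iff_pow M)

/-- The integral, as a power series in `p ^ (-s)`. -/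
theorem hasSum_integralOn (F h : MvPolynomial V ℤ) {s : ℂ} (hs : 0 < s.re) :
    HasSum (fun M : ℕ => ((((hm p V (levOn F h M)).toReal - (hm p V (levOn F h (M + 1))).toReal :
        ℝ)) : ℂ) * ((p : ℂ) ^ (-s)) ^ M)
      (∫ x in {x : V → ℤ_[p] | ‖(aeval x h : ℤ_[p])‖ = 1},
        ((‖(aeval x F : ℤ_[p])‖ : ℝ) : ℂ) ^ s ∂(hm p V)) := by
  have hs0 : s ≠ 0 := by
    rintro rfl
    simp at hs
  have hp0 : (p : ℝ) ≠ 0 := by exact_mod_cast hp.out.ne_zero
  have hcont : Continuous fun x : V → ℤ_[p] => ((‖(aeval x F : ℤ_[p])‖ : ℝ) : ℂ) ^ s :=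
    (Complex.continuous_ofReal_cpow_const hs).comp
      (continuous_norm.comp (continuous_aeval_padic F))
  have hint : Integrable (fun x : V → ℤ_[p] => ((‖(aeval x F : ℤ_[p])‖ : ℝ) : ℂ) ^ s)
      (hm p V) := by
    refine Integrable.of_bound (C := 1) hcont.aestronglyMeasurable ?_
    refine Filter.Eventually.of_forall fun x => ?_
    by_cases h : (aeval x F : ℤ_[p]) = 0
    · simp [h, Complex.zero_cpow hs0]
    · rw [Complex.norm_cpow_eq_rpow_re_of_pos (norm_pos_iff.2 h)]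
      exact Real.rpow_le_one (norm_nonneg _) (PadicInt.norm_le_one _) hs.le
  set S : ℕ → Set (V → ℤ_[p]) := fun M => levOn F h M \ levOn F h (M + 1) with hS
  have hSmeas : ∀ M, MeasurableSet (S M) := fun M =>
    (measurableSet_levOn F h M).diff (measurableSet_levOn F h (M + 1))
  have hmono : ∀ M N, M ≤ N → levOn (p := p) F h N ⊆ levOn F h M := fun M N h x hx =>
    ⟨(pow_dvd_pow _ h).trans hx.1, hx.2⟩
  have hdisj : Pairwise (Function.onFun Disjoint S) := by
    intro M N hne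
    rw [Function.onFun, Set.disjoint_left]
    rintro x ⟨h1, h2⟩ ⟨h3, h4⟩
    rcases lt_or_gt_of_ne hne with h | h
    · exact h2 (hmono _ _ h h3)
    · exact h4 (hmono _ _ h h1)
  have hval : ∀ M, ∀ x ∈ S M, ((‖(aeval x F : ℤ_[p])‖ : ℝ) : ℂ) ^ s = ((p : ℂ) ^ (-s)) ^ M := by
    rintro M x ⟨⟨h1, h1'⟩, h2⟩
    have h2 : ¬ ((p : ℤ_[p]) ^ (M + 1) ∣ aeval x F) := fun h => h2 ⟨h, h1'⟩
    have hne : (aeval x F : ℤ_[p]) ≠ 0 := by
      intro h
      apply h2
      rw [h]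
      exact dvd_zero _
    have hv : ((aeval x F : ℤ_[p])).valuation = M := by
      rw [← Ideal.mem_span_singleton,
        PadicInt.mem_span_pow_iff_le_valuation _ hne] at h1 h2
      omega
    have hpp : (0 : ℝ) < p := by exact_mod_cast hp.out.pos
    have e1 : ((p : ℂ) ^ (-s)) = Complex.exp ((Real.log p : ℝ) * (-s)) := by
      have := cpow_of_pos hpp (-s)
      rwa [Complex.ofReal_natCast] at this
    rw [PadicInt.norm_eq_zpow_neg_valuation hne, hv, zpow_neg, zpow_natCast,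
      cpow_of_pos (inv_pos.2 (pow_pos hpp M)), e1, ← Complex.exp_nat_mul, Real.log_inv,
      Real.log_pow]
    congr 1
    push_cast
    ring
  have hsub : (⋃ M, S M) ⊆ {x : V → ℤ_[p] | ‖(aeval x h : ℤ_[p])‖ = 1} := by
    intro x hx
    rw [Set.mem_iUnion] at hx
    obtain ⟨M, hx⟩ := hx
    exact hx.1.2
  have hcompl : ∀ x ∈ {x : V → ℤ_[p] | ‖(aeval x h : ℤ_[p])‖ = 1} \ (⋃ M, S M),
      ((‖(aeval x F : ℤ_[p])‖ : ℝ) : ℂ) ^ s = 0 := by
    rintro x ⟨hxh, hx⟩
    have h0 : (aeval x F : ℤ_[p]) = 0 := by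
      by_contra hne
      apply hx
      rw [Set.mem_iUnion]
      refine ⟨((aeval x F : ℤ_[p])).valuation, ⟨?_, hxh⟩, fun h3 => ?_⟩
      · rw [← Ideal.mem_span_singleton,
          PadicInt.mem_span_pow_iff_le_valuation _ hne]
      · have h4 := h3.1
        rw [← Ideal.mem_span_singleton,
          PadicInt.mem_span_pow_iff_le_valuation _ hne] at h4
        omega
    rw [h0, norm_zero, Complex.ofReal_zero, Complex.zero_cpow hs0]
  have h1 := hasSum_integral_iUnion (μ := hm p V) hSmeas hdisj hint.integrableOn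
  rw [← setIntegral_eq_of_subset_of_forall_sdiff_eq_zero (measurableSet_unit h) hsub hcompl] at h1
  have h2 : (fun M : ℕ => ∫ x in S M, ((‖(aeval x F : ℤ_[p])‖ : ℝ) : ℂ) ^ s ∂(hm p V)) =
      fun M : ℕ => ((((hm p V (levOn F h M)).toReal - (hm p V (levOn F h (M + 1))).toReal :
        ℝ)) : ℂ) * ((p : ℂ) ^ (-s)) ^ M := by
    funext M
    have h3 : (hm p V (S M)).toReal = (hm p V (levOn F h M)).toReal -
        (hm p V (levOn F h (M + 1))).toReal := by
      rw [hS]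
      beta_reduce
      rw [measure_sdiff (hmono M (M + 1) (Nat.le_succ M))
        (measurableSet_levOn F h (M + 1)).nullMeasurableSet
        (measure_ne_top _ _), ENNReal.toReal_sub_of_le
        (measure_mono (hmono M (M + 1) (Nat.le_succ M)))
        (measure_ne_top _ _)]
    rw [setIntegral_congr_fun (hSmeas M) (hval M), setIntegral_const, Measure.real, h3,
      Complex.real_smul]
  rw [h2] at h1
  exact h1

theorem norm_integralOn (F h : MvPolynomial V ℤ) {s : ℂ} (hs : 0 < s.re) :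
    ‖∫ x in {x : V → ℤ_[p] | ‖(aeval x h : ℤ_[p])‖ = 1},
        ((‖(aeval x F : ℤ_[p])‖ : ℝ) : ℂ) ^ s ∂(hm p V)‖ ≤ 1 := by
  have hs0 : s ≠ 0 := by
    rintro rfl
    simp at hs
  have h1 : ∀ x : V → ℤ_[p], ‖((‖(aeval x F : ℤ_[p])‖ : ℝ) : ℂ) ^ s‖ ≤ 1 := by
    intro x
    by_cases h : (aeval x F : ℤ_[p]) = 0
    · simp [h, Complex.zero_cpow hs0]
    · rw [Complex.norm_cpow_eq_rpow_re_of_pos (norm_pos_iff.2 h)]
      exact Real.rpow_le_one (norm_nonneg _) (PadicInt.norm_le_one _) hs.le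
  have h2 := norm_setIntegral_le_of_norm_le_const (μ := hm p V) (C := 1)
    (s := {x : V → ℤ_[p] | ‖(aeval x h : ℤ_[p])‖ = 1}) (measure_lt_top _ _)
    (fun x _ => h1 x)
  refine h2.trans ?_
  rw [one_mul]
  exact measureReal_le_one

end measure

section rel

variable (p : ℕ) [hp : Fact p.Prime] {V : Type} [Fintype V] (f h : MvPolynomial V ℤ)

theorem muOn_succ (M : ℕ) : muOn p f h (M + 1) = ((densOn p f h (M + 1) : ℚ) : ℝ) := by
  let _ : MeasurableSpace (V → ℤ_[p]) := borel _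
  have _ : BorelSpace (V → ℤ_[p]) := ⟨rfl⟩
  exact measure_solOn f h M

theorem muOn_nonneg (M : ℕ) : 0 ≤ muOn p f h M := ENNReal.toReal_nonneg

theorem muOn_le_one (M : ℕ) : muOn p f h M ≤ 1 := by
  let _ : MeasurableSpace (V → ℤ_[p]) := borel _
  have _ : BorelSpace (V → ℤ_[p]) := ⟨rfl⟩
  exact measureReal_le_one

theorem hasSum_on {s : ℂ} (hs : 0 < s.re) :
    HasSum (fun M : ℕ => (((muOn p f h M - muOn p f h (M + 1) : ℝ)) : ℂ) *
      ((p : ℂ) ^ (-s)) ^ M) (igusaOn p f h s) := by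
  let _ : MeasurableSpace (V → ℤ_[p]) := borel _
  have _ : BorelSpace (V → ℤ_[p]) := ⟨rfl⟩
  exact hasSum_integralOn f h hs

theorem norm_on_le {s : ℂ} (hs : 0 < s.re) : ‖igusaOn p f h s‖ ≤ 1 := by
  let _ : MeasurableSpace (V → ℤ_[p]) := borel _
  have _ : BorelSpace (V → ℤ_[p]) := ⟨rfl⟩
  exact norm_integralOn f h hs

theorem summable_mu {T : ℂ} (hT : ‖T‖ < 1) (k : ℕ) :
    Summable fun M : ℕ => ((muOn p f h (M + k) : ℝ) : ℂ) * T ^ M := by
  refine Summable.of_norm_bounded (summable_geometric_of_lt_one (norm_nonneg _) hT) fun M => ?_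
  rw [norm_mul, norm_pow, Complex.norm_real, Real.norm_of_nonneg (muOn_nonneg p f h _)]
  exact mul_le_of_le_one_left (pow_nonneg (norm_nonneg _) _) (muOn_le_one p f h _)

/-- the generating function of the measures -/
noncomputable def genOn (T : ℂ) : ℂ := ∑' M : ℕ, ((muOn p f h M : ℝ) : ℂ) * T ^ M

theorem genOn_succ {T : ℂ} (hT : ‖T‖ < 1) :
    genOn p f h T = muOn p f h 0 + T * ∑' M : ℕ, ((muOn p f h (M + 1) : ℝ) : ℂ) * T ^ M := by
  have h0 : Summable fun M : ℕ => ((muOn p f h M : ℝ) : ℂ) * T ^ M := summable_mu p f h hT 0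
  rw [genOn, h0.tsum_eq_zero_add, ← tsum_mul_left]
  simp only [pow_zero, mul_one]
  congr 1
  refine tsum_congr fun M => ?_
  ring

theorem genOn_igusa {s : ℂ} (hs : 0 < s.re) (hT : ‖(p : ℂ) ^ (-s)‖ < 1) :
    (1 - (p : ℂ) ^ (-s)) * genOn p f h ((p : ℂ) ^ (-s)) =
      muOn p f h 0 - (p : ℂ) ^ (-s) * igusaOn p f h s := by
  have h1 := (hasSum_on p f h hs).tsum_eq
  have h2 := genOn_succ p f h hT
  have h3 : ∑' M : ℕ, (((muOn p f h M - muOn p f h (M + 1) : ℝ)) : ℂ) *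
      ((p : ℂ) ^ (-s)) ^ M = genOn p f h ((p : ℂ) ^ (-s)) -
        ∑' M : ℕ, ((muOn p f h (M + 1) : ℝ) : ℂ) * ((p : ℂ) ^ (-s)) ^ M := by
    have h4 := (summable_mu p f h hT 0).tsum_sub (summable_mu p f h hT 1)
    rw [genOn]
    refine (tsum_congr fun M => ?_).trans h4
    push_cast
    ring
  rw [← h1, h3]
  linear_combination h2

theorem gen_FF {T : ℂ} (hT : ‖T‖ < 1) :
    (1 - (p : ℂ)⁻¹ * T) * gen p (FF f h) T =
      1 + (1 - (p : ℂ)⁻¹) * (genOn p f h ((p : ℂ)⁻¹ * T) - muOn p f h 0) := by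
  have hp1 : ‖((p : ℂ)⁻¹)‖ ≤ 1 := by
    rw [norm_inv, Complex.norm_natCast]
    exact inv_le_one_of_one_le₀ (by exact_mod_cast hp.out.one_lt.le)
  have hT' : ‖(p : ℂ)⁻¹ * T‖ < 1 := by
    rw [norm_mul]
    exact lt_of_le_of_lt (mul_le_of_le_one_left (norm_nonneg _) hp1) hT
  have h1 := gen_succ p (FF f h) hT
  have h2 := genOn_succ p f h hT'
  have h3 : ∑' M : ℕ, ((dens p (FF f h) (M + 1) : ℚ) : ℂ) * T ^ M -
      (p : ℂ)⁻¹ * gen p (FF f h) T =
      (1 - (p : ℂ)⁻¹) * ((p : ℂ)⁻¹ *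
        ∑' M : ℕ, ((muOn p f h (M + 1) : ℝ) : ℂ) * ((p : ℂ)⁻¹ * T) ^ M) := by
    rw [gen, ← tsum_mul_left, ← (summable_dens_succ p (FF f h) hT).tsum_sub
      ((summable_dens p (FF f h) hT).mul_left _), ← tsum_mul_left, ← tsum_mul_left]
    refine tsum_congr fun M => ?_
    have h4 := congrArg (fun x : ℚ => (x : ℂ)) (dens_FF p f h M)
    push_cast at h4
    rw [one_div] at h4
    rw [mul_pow, muOn_succ]
    push_cast
    linear_combination T ^ M * h4
  rw [h2]
  linear_combination h1 + T * h3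

/-- The additive term of the relation. -/
noncomputable def AO (g : ℝ) (s : ℂ) : ℂ :=
  (1 - (1 - (p : ℂ) ^ (-s)) * (1 - (p : ℂ)⁻¹ * (p : ℂ) ^ (-s))⁻¹ *
    (1 + (1 - (p : ℂ)⁻¹) * ((g : ℂ) * (1 - (p : ℂ)⁻¹ * (p : ℂ) ^ (-s))⁻¹ - g))) *
    ((p : ℂ) ^ (-s))⁻¹

/-- The relation between the zeta functions. -/
theorem igusa_FF {s : ℂ} (hs : 0 < s.re) :
    igusaZeta p (FF f h) s = AO p (muOn p f h 0) s + BB p 1 s * igusaOn p f h (s + 1) := by
  have hT := norm_T_lt p hs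
  have hs' : 0 < (s + 1).re := by
    rw [Complex.add_re, Complex.one_re]
    positivity
  have hT' := norm_T_lt p hs'
  have h1 := gen_igusa p (FF f h) hs hT
  have h2 := genOn_igusa p f h hs' hT'
  have h3 := gen_FF p f h hT
  have e0 : (p : ℂ) ^ (-(s + 1)) = (p : ℂ)⁻¹ * (p : ℂ) ^ (-s) := by
    have := T_add p s 1
    rwa [Nat.cast_one, pow_one] at this
  rw [e0] at h2 hT'
  have hA := sub_ne_zero_of_norm_lt hT'
  have hT0 := T_ne_zero p s
  rw [AO, BB, pow_one]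
  generalize (p : ℂ) ^ (-s) = T at *
  generalize (p : ℂ)⁻¹ = a at *
  generalize igusaZeta p (FF f h) s = Z at *
  generalize igusaOn p f h (s + 1) = W at *
  generalize gen p (FF f h) T = g at *
  generalize genOn p f h (a * T) = w at *
  generalize ((muOn p f h 0 : ℝ) : ℂ) = m at *
  have e1 : w = (m - a * T * W) * (1 - a * T)⁻¹ := by
    rw [eq_mul_inv_iff_mul_eq₀ hA]
    linear_combination h2
  have e2 : g = (1 + (1 - a) * (w - m)) * (1 - a * T)⁻¹ := by
    rw [eq_mul_inv_iff_mul_eq₀ hA]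
    linear_combination h3
  have e3 : Z = (1 - (1 - T) * g) * T⁻¹ := by
    rw [eq_mul_inv_iff_mul_eq₀ hT0]
    linear_combination h1
  have hTz : T * T⁻¹ = 1 := mul_inv_cancel₀ hT0
  rw [e3, e2, e1]
  linear_combination ((1 - T) * (1 - a) * a * W * (1 - a * T)⁻¹ * (1 - a * T)⁻¹) * hTz

theorem meromorphicAt_AO (g : ℝ) (s : ℂ) : MeromorphicAt (AO p g) s := by
  have hT : MeromorphicAt (fun s : ℂ => (p : ℂ) ^ (-s)) s := (analyticAt_T p s).meromorphicAt
  unfold AO
  fun_prop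

theorem analyticAt_AO {g : ℝ} {s : ℂ} (h1 : 1 - (p : ℂ)⁻¹ * (p : ℂ) ^ (-s) ≠ 0) :
    AnalyticAt ℂ (AO p g) s := by
  have hT := analyticAt_T p s
  have hT0 := T_ne_zero p s
  have e1 : AnalyticAt ℂ (fun s : ℂ => (1 - (p : ℂ)⁻¹ * (p : ℂ) ^ (-s))⁻¹) s :=
    (analyticAt_const.sub (analyticAt_const.mul hT)).inv h1
  have e3 : AnalyticAt ℂ (fun s : ℂ => ((p : ℂ) ^ (-s))⁻¹) s := hT.inv hT0
  exact (analyticAt_const.sub (((analyticAt_const.sub hT).mul e1).mul
    (analyticAt_const.add (analyticAt_const.mul ((analyticAt_const.mul e1).sub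
      analyticAt_const))))).mul e3

/-- A pole of a function bounded by one on the right half plane has negative real part. -/
theorem re_neg_of_bound {Z : ℂ → ℂ} (hZ : ∀ s : ℂ, 0 < s.re → ‖Z s‖ ≤ 1) {s₀ : ℂ}
    (h : meromorphicOrderAt Z s₀ < 0) : s₀.re < 0 := by
  by_contra hre
  push Not at hre
  have h1 := tendsto_cobounded_of_meromorphicOrderAt_neg h
  have h2 : ∀ᶠ s in 𝓝[≠] s₀, 1 < ‖Z s‖ := by
    have h3 := (tendsto_norm_cobounded_atTop.comp h1).eventually (eventually_gt_atTop 1)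
    exact h3
  have h4 : Tendsto (fun ε : ℝ => s₀ + (ε : ℂ)) (𝓝[>] 0) (𝓝[≠] s₀) := by
    rw [tendsto_nhdsWithin_iff]
    constructor
    · have h5 : Tendsto (fun ε : ℝ => s₀ + (ε : ℂ)) (𝓝 0) (𝓝 (s₀ + ((0 : ℝ) : ℂ))) :=
        (continuous_const.add Complex.continuous_ofReal).tendsto 0
      rw [Complex.ofReal_zero, add_zero] at h5
      exact h5.mono_left nhdsWithin_le_nhds
    · filter_upwards [self_mem_nhdsWithin] with ε hε
      simp only [Set.mem_compl_iff, Set.mem_singleton_iff, add_eq_left, Complex.ofReal_eq_zero]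
      exact (Set.mem_Ioi.1 hε).ne'
  have h5 := h4.eventually h2
  have h6 : ∀ᶠ ε : ℝ in 𝓝[>] 0, False := by
    filter_upwards [h5, self_mem_nhdsWithin] with ε h7 h8
    have h9 : 0 < (s₀ + (ε : ℂ)).re := by
      rw [Complex.add_re, Complex.ofReal_re]
      have := Set.mem_Ioi.1 h8
      linarith
    exact absurd (hZ _ h9) (not_le.2 h7)
  exact (h6.exists).elim fun _ h => h

/-- The transfer of poles from `f` on `h ≠ 0` to `u f + y (t h - 1)`. -/
theorem pole_transfer_on {Z : ℂ → ℂ} (hZ : MeromorphicOn Z Set.univ)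
    (hZp : ∀ s : ℂ, 0 < s.re → Z s = igusaOn p f h s) {s₀ : ℂ}
    (hs₀ : meromorphicOrderAt Z s₀ < 0) :
    s₀.re < 0 ∧ ∃ W : ℂ → ℂ, MeromorphicOn W Set.univ ∧
      (∀ s : ℂ, 0 < s.re → W s = igusaZeta p (FF f h) s) ∧
      meromorphicOrderAt W (s₀ - 1) = meromorphicOrderAt Z s₀ := by
  have hre : s₀.re < 0 := re_neg_of_bound (fun s hs => by
    rw [hZp s hs]
    exact norm_on_le p f h hs) hs₀
  refine ⟨hre, ?_⟩
  set s₁ : ℂ := s₀ - 1 with hs₁
  have hcomp : ∀ s, MeromorphicAt (Z ∘ (· + (1 : ℂ))) s := fun s =>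
    meromorphicAt_comp_add_const_iff_meromorphicAt.2 (hZ _ (Set.mem_univ _))
  refine ⟨AO p (muOn p f h 0) + BB p 1 * (Z ∘ (· + (1 : ℂ))), fun s _ => ?_, fun s hs => ?_, ?_⟩
  · exact (meromorphicAt_AO p _ s).add ((meromorphicAt_BB p 1 s).mul (hcomp s))
  · rw [igusa_FF p f h hs, Pi.add_apply, Pi.mul_apply, Function.comp_apply, hZp]
    rw [Complex.add_re, Complex.one_re]
    positivity
  · have hp1 : (1 : ℝ) < p := by exact_mod_cast hp.out.one_lt
    have hT : ‖(p : ℂ) ^ (-s₁)‖ = (p : ℝ) ^ (1 - s₀.re) := by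
      rw [norm_T, hs₁, Complex.sub_re, Complex.one_re]
      congr 1
      ring
    have hT1 : 1 < ‖(p : ℂ) ^ (-s₁)‖ := by
      rw [hT]
      apply Real.one_lt_rpow hp1
      linarith
    have hT3 : 1 < ‖(p : ℂ)⁻¹ * (p : ℂ) ^ (-s₁)‖ := by
      rw [norm_mul, hT, norm_inv, Complex.norm_natCast, ← Real.rpow_neg_one,
        ← Real.rpow_add (by positivity)]
      apply Real.one_lt_rpow hp1
      linarith
    have n1 := sub_ne_zero_of_lt_norm hT1
    have n3 := sub_ne_zero_of_lt_norm hT3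
    have n2 : 1 - ((p : ℂ)⁻¹) ^ 1 * (p : ℂ) ^ (-s₁) ≠ 0 := by rwa [pow_one]
    have hp0 : (p : ℂ) ≠ 0 := by exact_mod_cast hp.out.ne_zero
    have hBne : BB p 1 s₁ ≠ 0 := by
      rw [BB]
      have n4 : 1 - (p : ℂ)⁻¹ ≠ 0 := by
        apply sub_ne_zero_of_norm_lt
        rw [norm_inv, Complex.norm_natCast]
        exact inv_lt_one_of_one_lt₀ hp1
      exact mul_ne_zero (mul_ne_zero n1 (inv_ne_zero n3))
        (mul_ne_zero (mul_ne_zero n4 (inv_ne_zero n2)) (pow_ne_zero _ (inv_ne_zero hp0)))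
    have ho : meromorphicOrderAt (BB p 1 * (Z ∘ (· + (1 : ℂ)))) s₁ =
        meromorphicOrderAt Z s₀ := by
      rw [meromorphicOrderAt_mul_of_ne_zero (analyticAt_BB p n3 n2) hBne,
        meromorphicOrderAt_comp_add_const_eq_meromorphicOrderAt, hs₁, sub_add_cancel]
    rw [meromorphicOrderAt_add_eq_right_of_lt (meromorphicAt_AO p _ s₁), ho]
    rw [ho]
    exact lt_of_lt_of_le hs₀ (analyticAt_AO p n3).meromorphicOrderAt_nonneg

end rel

end Pool.Agent.Q221.Loc
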