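import Pool.Agent.Q221.Loc.LG
import Pool.Agent.Q221.Loc.Cnt
import Pool.Agent.Q221.Loc.Int
import Pool.Agent.Q49.MZ.Denef

/-!
# The local-global principle for the poles of Igusa's Poincaré series
-/

set_option autoImplicit false

namespace Pool.Agent.Q221.Loc

open MvPolynomial Pool.Agent.W206.CU Pool.Agent.Y229.PA Pool.Agent.Q49.MZ
open Pool.Agent.H628R4.TP (IsBFunction)

/-- the power series `φ` is the expansion of a rational function -/
def IsRat (φ : PowerSeries ℂ) : Prop :=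
  ∃ A B : Polynomial ℂ, B ≠ 0 ∧ (B : PowerSeries ℂ) * φ = A

/-- The power series `φ` is the expansion of a rational function, and for every pole `T₀` of this
function the number `- log |T₀| / log p` is a root of `b`. -/
def HoldsT (p : ℕ) (φ : PowerSeries ℂ) (b : Polynomial ℂ) : Prop :=
  IsRat φ ∧ ∀ (T₀ : ℂ) (r : ℕ), 0 < r → IsPoleOfOrder φ T₀ r →
    b.eval ((-Real.log ‖T₀‖ / Real.log p : ℝ) : ℂ) = 0

/-- the power series `φ` is the expansion of a rational function regular at `T₀` -/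
def RegAt (φ : PowerSeries ℂ) (T₀ : ℂ) : Prop :=
  ∃ A B : Polynomial ℂ, B.eval T₀ ≠ 0 ∧ (B : PowerSeries ℂ) * φ = A

theorem RegAt.not_pole {φ : PowerSeries ℂ} {T₀ : ℂ} (h : RegAt φ T₀) {r : ℕ} (hr : 0 < r) :
    ¬ IsPoleOfOrder φ T₀ r := by
  rintro ⟨A', B', hA', hB', h'⟩
  obtain ⟨A, B, hB, h⟩ := h
  have h1 : ((B * A' : Polynomial ℂ) : PowerSeries ℂ) =
      (((Polynomial.X - Polynomial.C T₀) ^ r * B' * A : Polynomial ℂ) : PowerSeries ℂ) := by
    rw [Polynomial.coe_mul, Polynomial.coe_mul _ A, ← h', ← h]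
    ring
  have h2 := congrArg (Polynomial.eval T₀) (Polynomial.coe_injective ℂ h1)
  rw [Polynomial.eval_mul, Polynomial.eval_mul, Polynomial.eval_mul, Polynomial.eval_pow,
    Polynomial.eval_sub, Polynomial.eval_X, Polynomial.eval_C, sub_self, zero_pow hr.ne',
    zero_mul, zero_mul] at h2
  exact mul_ne_zero hB hA' h2

/-- a rational function is regular or has a pole -/
theorem IsRat.reg_or_pole {φ : PowerSeries ℂ} (h : IsRat φ) (T₀ : ℂ) :
    RegAt φ T₀ ∨ ∃ r, 0 < r ∧ IsPoleOfOrder φ T₀ r := by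
  obtain ⟨A, B, hB, h⟩ := h
  by_cases hA : A = 0
  · left
    refine ⟨0, 1, by simp, ?_⟩
    rw [hA, Polynomial.coe_zero] at h
    have h0 : (B : PowerSeries ℂ) ≠ 0 := by
      intro h0
      exact hB (Polynomial.coe_injective ℂ (by rw [h0, Polynomial.coe_zero]))
    rcases mul_eq_zero.1 h with h1 | h1
    · exact absurd h1 h0
    · rw [h1, Polynomial.coe_zero, mul_zero]
  · obtain ⟨A', hA', hA'0⟩ := Polynomial.exists_eq_pow_rootMultiplicity_mul_and_not_dvd A hA T₀
    obtain ⟨B', hB', hB'0⟩ := Polynomial.exists_eq_pow_rootMultiplicity_mul_and_not_dvd B hB T₀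
    rw [Polynomial.dvd_iff_isRoot, Polynomial.IsRoot.def] at hA'0 hB'0
    set u := A.rootMultiplicity T₀
    set v := B.rootMultiplicity T₀
    have hX : ((Polynomial.X - Polynomial.C T₀ : Polynomial ℂ) : PowerSeries ℂ) ≠ 0 := by
      intro h0
      exact Polynomial.X_sub_C_ne_zero T₀
        (Polynomial.coe_injective ℂ (by rw [h0, Polynomial.coe_zero]))
    rw [hA', hB', Polynomial.coe_mul, Polynomial.coe_mul, Polynomial.coe_pow,
      Polynomial.coe_pow] at h
    rcases le_or_gt v u with hvu | hvu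
    · left
      refine ⟨(Polynomial.X - Polynomial.C T₀) ^ (u - v) * A', B', hB'0, ?_⟩
      have h1 : ((Polynomial.X - Polynomial.C T₀ : Polynomial ℂ) : PowerSeries ℂ) ^ v *
          ((B' : PowerSeries ℂ) * φ) =
          ((Polynomial.X - Polynomial.C T₀ : Polynomial ℂ) : PowerSeries ℂ) ^ v *
          ((((Polynomial.X - Polynomial.C T₀) ^ (u - v) * A' : Polynomial ℂ)) :
            PowerSeries ℂ) := by
        rw [Polynomial.coe_mul, Polynomial.coe_pow, ← mul_assoc, ← mul_assoc, h, ← pow_add]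
        congr 3
        omega
      exact mul_left_cancel₀ (pow_ne_zero _ hX) h1
    · right
      refine ⟨v - u, by omega, A', B', hA'0, hB'0, ?_⟩
      have h1 : ((Polynomial.X - Polynomial.C T₀ : Polynomial ℂ) : PowerSeries ℂ) ^ u *
          ((((Polynomial.X - Polynomial.C T₀) ^ (v - u) * B' : Polynomial ℂ)) *
            φ) =
          ((Polynomial.X - Polynomial.C T₀ : Polynomial ℂ) : PowerSeries ℂ) ^ u *
          (A' : PowerSeries ℂ) := by
        rw [Polynomial.coe_mul, Polynomial.coe_pow, ← h, ← mul_assoc, ← mul_assoc, ← pow_add]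
        congr 3
        omega
      exact mul_left_cancel₀ (pow_ne_zero _ hX) h1

theorem IsRat.add {φ ψ : PowerSeries ℂ} (h : IsRat φ) (h' : IsRat ψ) : IsRat (φ + ψ) := by
  obtain ⟨A, B, hB, h⟩ := h
  obtain ⟨A', B', hB', h'⟩ := h'
  refine ⟨B' * A + B * A', B * B', mul_ne_zero hB hB', ?_⟩
  rw [Polynomial.coe_add, Polynomial.coe_mul, Polynomial.coe_mul, Polynomial.coe_mul, ← h, ← h']
  ring

theorem RegAt.add {φ ψ : PowerSeries ℂ} {T₀ : ℂ} (h : RegAt φ T₀) (h' : RegAt ψ T₀) :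
    RegAt (φ + ψ) T₀ := by
  obtain ⟨A, B, hB, h⟩ := h
  obtain ⟨A', B', hB', h'⟩ := h'
  refine ⟨B' * A + B * A', B * B', by rw [Polynomial.eval_mul]; exact mul_ne_zero hB hB', ?_⟩
  rw [Polynomial.coe_add, Polynomial.coe_mul, Polynomial.coe_mul, Polynomial.coe_mul, ← h, ← h']
  ring

theorem IsRat.const_mul {φ : PowerSeries ℂ} (h : IsRat φ) (c : ℂ) :
    IsRat (PowerSeries.C c * φ) := by
  obtain ⟨A, B, hB, h⟩ := h
  refine ⟨Polynomial.C c * A, B, hB, ?_⟩
  rw [Polynomial.coe_mul, Polynomial.coe_C, ← h]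
  ring

theorem RegAt.const_mul {φ : PowerSeries ℂ} {T₀ : ℂ} (h : RegAt φ T₀) (c : ℂ) :
    RegAt (PowerSeries.C c * φ) T₀ := by
  obtain ⟨A, B, hB, h⟩ := h
  refine ⟨Polynomial.C c * A, B, hB, ?_⟩
  rw [Polynomial.coe_mul, Polynomial.coe_C, ← h]
  ring

theorem IsRat.sum {ι : Type} (T : Finset ι) (φ : ι → PowerSeries ℂ) (h : ∀ i ∈ T, IsRat (φ i)) :
    IsRat (∑ i ∈ T, φ i) := by
  classical
  induction T using Finset.induction_on with
  | empty => exact ⟨0, 1, one_ne_zero, by simp⟩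
  | insert a T ha ih =>
    rw [Finset.sum_insert ha]
    exact (h a (Finset.mem_insert_self _ _)).add
      (ih fun i hi => h i (Finset.mem_insert_of_mem hi))

theorem RegAt.sum {ι : Type} (T : Finset ι) (φ : ι → PowerSeries ℂ) {T₀ : ℂ}
    (h : ∀ i ∈ T, RegAt (φ i) T₀) : RegAt (∑ i ∈ T, φ i) T₀ := by
  classical
  induction T using Finset.induction_on with
  | empty => exact ⟨0, 1, by simp, by simp⟩
  | insert a T ha ih =>
    rw [Finset.sum_insert ha]
    exact (h a (Finset.mem_insert_self _ _)).add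
      (ih fun i hi => h i (Finset.mem_insert_of_mem hi))

/-! ### The relation of the Poincaré series -/

section

variable (p : ℕ) [hp : Fact p.Prime]

omit hp in
theorem coeff_poincare {ρ : Type} (F : MvPolynomial ρ ℤ) (k : ℕ) :
    PowerSeries.coeff k (poincare p F) = ((dens p F k : ℚ) : ℂ) := by
  rw [poincare, PowerSeries.coeff_mk, dens, numIn]
  push_cast
  rfl

theorem densOn_unit {V : Type} [Finite V] (f h : MvPolynomial V ℤ)
    (hu : ∀ x : V → ℤ_[p], ‖(aeval x h : ℤ_[p])‖ = 1) (k : ℕ) :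
    densOn p f h (k + 1) = dens p f (k + 1) := by
  have hall : ∀ x : V → ZMod (p ^ (k + 1)), IsUnit (aeval x h : ZMod (p ^ (k + 1))) := by
    intro x
    choose y hy using fun i => ZMod.ringHom_surjective (PadicInt.toZModPow (p := p) (k + 1)) (x i)
    have h1 : (aeval x h : ZMod (p ^ (k + 1))) = PadicInt.toZModPow (k + 1) (aeval y h) := by
      have h2 : (aeval x : MvPolynomial V ℤ →ₐ[ℤ] ZMod (p ^ (k + 1))) =
          ((PadicInt.toZModPow (p := p) (k + 1)).toIntAlgHom).comp (aeval y) := by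
        apply MvPolynomial.algHom_ext
        intro i
        rw [aeval_X, AlgHom.comp_apply, aeval_X, ← hy i]
        rfl
      rw [h2]
      rfl
    rw [h1, isUnit_iff_pow]
    exact hu y
  unfold densOn dens numOn numIn
  congr 2
  refine Nat.card_congr (Equiv.subtypeEquivRight fun x => ?_)
  exact ⟨fun h => h.1, fun h => ⟨h, hall x⟩⟩

theorem poincare_FF {V : Type} [Fintype V] (f h : MvPolynomial V ℤ)
    (hu : ∀ x : V → ℤ_[p], ‖(aeval x h : ℤ_[p])‖ = 1) :
    ((1 - Polynomial.C ((p : ℂ)⁻¹) * Polynomial.X : Polynomial ℂ) : PowerSeries ℂ) *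
      poincare p (FF f h) = ((Polynomial.C ((p : ℂ)⁻¹) : Polynomial ℂ) : PowerSeries ℂ) +
      ((Polynomial.C (1 - (p : ℂ)⁻¹) : Polynomial ℂ) : PowerSeries ℂ) *
        PowerSeries.rescale (((p : ℂ)⁻¹) ^ 1) (poincare p f) := by
  ext k
  rcases k with _ | k
  · rw [Polynomial.coe_sub, Polynomial.coe_one, Polynomial.coe_mul, Polynomial.coe_X,
      Polynomial.coe_C, Polynomial.coe_C, map_add, sub_mul, one_mul, map_sub, coeff_poincare,
      dens_zero, PowerSeries.coeff_C_mul, PowerSeries.coeff_rescale, coeff_poincare, dens_zero,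
      mul_assoc, PowerSeries.coeff_C_mul, PowerSeries.coeff_zero_X_mul]
    simp
  · have h1 := dens_FF p f h k
    rw [densOn_unit p f h hu] at h1
    have h2 := congrArg (fun x : ℚ => (x : ℂ)) h1
    push_cast at h2
    rw [Polynomial.coe_sub, Polynomial.coe_one, Polynomial.coe_mul, Polynomial.coe_X,
      Polynomial.coe_C, Polynomial.coe_C, map_add, sub_mul, one_mul, map_sub, coeff_poincare,
      PowerSeries.coeff_C_mul, PowerSeries.coeff_rescale, coeff_poincare, mul_assoc,
      PowerSeries.coeff_C_mul,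
      PowerSeries.coeff_succ_X_mul, coeff_poincare, PowerSeries.coeff_C]
    simp only [Nat.add_eq_zero_iff, one_ne_zero, and_false, if_false, zero_add, pow_one]
    rw [one_div] at h2
    linear_combination h2

theorem poincare_split {V : Type} [Fintype V] [DecidableEq V] (F : MvPolynomial V ℤ) :
    poincare p F = PowerSeries.C (((p : ℂ) ^ Fintype.card V)⁻¹) *
      ∑ c : V → Fin p, poincare p (sh (fun i => ((c i : ℕ) : ℤ)) (p : ℤ) F) := by
  have hp0 : (p : ℂ) ^ Fintype.card V ≠ 0 :=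
    pow_ne_zero _ (by exact_mod_cast hp.out.ne_zero)
  ext k
  rw [PowerSeries.coeff_C_mul, map_sum]
  simp only [coeff_poincare]
  have h1 := congrArg (fun q : ℚ => (q : ℂ)) (dens_split (p := p) F k)
  push_cast at h1
  rw [h1, inv_mul_cancel_left₀ hp0]

/-- Denef's question for the Poincaré series of `F` at the prime `p` and the polynomial `b`. -/
def HoldsD (V : Type) [Fintype V] (F : MvPolynomial V ℤ) (b : Polynomial ℂ) : Prop :=
  HoldsT p (poincare p F) b

theorem isRat_unit {V : Type} [Fintype V] (f h : MvPolynomial V ℤ)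
    (hu : ∀ x : V → ℤ_[p], ‖(aeval x h : ℤ_[p])‖ = 1) (hF : IsRat (poincare p (FF f h))) :
    IsRat (poincare p f) := by
  obtain ⟨A, B, hB, hAB⟩ := hF
  have hp0 : (p : ℂ) ≠ 0 := by exact_mod_cast hp.out.ne_zero
  have hd : (1 - (p : ℂ)⁻¹) ≠ 0 := by
    apply sub_ne_zero_of_norm_lt
    rw [norm_inv, Complex.norm_natCast]
    exact inv_lt_one_of_one_lt₀ (by exact_mod_cast hp.out.one_lt)
  have h1 := poincare_FF p f h hu
  -- multiply by `B`
  have h2 : (B : PowerSeries ℂ) * PowerSeries.rescale (((p : ℂ)⁻¹) ^ 1) (poincare p f) =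
      ((Polynomial.C ((1 - (p : ℂ)⁻¹)⁻¹) * ((1 - Polynomial.C ((p : ℂ)⁻¹) * Polynomial.X) * A -
        Polynomial.C ((p : ℂ)⁻¹) * B) : Polynomial ℂ) : PowerSeries ℂ) := by
    rw [Polynomial.coe_mul, Polynomial.coe_sub, Polynomial.coe_mul _ A, ← hAB,
      Polynomial.coe_mul _ B]
    have h3 : ((Polynomial.C ((1 - (p : ℂ)⁻¹)⁻¹) : Polynomial ℂ) : PowerSeries ℂ) *
        ((Polynomial.C (1 - (p : ℂ)⁻¹) : Polynomial ℂ) : PowerSeries ℂ) = 1 := by
      rw [← Polynomial.coe_mul, ← Polynomial.C_mul, inv_mul_cancel₀ hd, Polynomial.C_1,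
        Polynomial.coe_one]
    linear_combination (-(B : PowerSeries ℂ) *
      ((Polynomial.C ((1 - (p : ℂ)⁻¹)⁻¹) : Polynomial ℂ) : PowerSeries ℂ)) * h1 -
      (B : PowerSeries ℂ) * PowerSeries.rescale (((p : ℂ)⁻¹) ^ 1) (poincare p f) * h3
  have h4 := congrArg (PowerSeries.rescale (p : ℂ)) h2
  rw [map_mul, rescale_coe, rescale_coe, PowerSeries.rescale_rescale] at h4
  have h5 : ((p : ℂ)⁻¹) ^ 1 * (p : ℂ) = 1 := by
    rw [pow_one, inv_mul_cancel₀ hp0]
  rw [h5, PowerSeries.rescale_one, RingHom.id_apply] at h4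
  refine ⟨_, B.comp (Polynomial.C (p : ℂ) * Polynomial.X), ?_, h4⟩
  intro h6
  apply hB
  have h7 := congrArg (fun q : Polynomial ℂ => q.comp (Polynomial.C (p : ℂ)⁻¹ * Polynomial.X)) h6
  simp only [Polynomial.comp_assoc, Polynomial.mul_comp, Polynomial.C_comp, Polynomial.X_comp,
    Polynomial.zero_comp] at h7
  rwa [← mul_assoc, ← Polynomial.C_mul, mul_inv_cancel₀ hp0, Polynomial.C_1, one_mul,
    Polynomial.comp_X] at h7

theorem zax_den : Zax p (HoldsD p) where
  dvd V _ F b b' hd h := by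
    refine ⟨h.1, fun T₀ r hr hP => ?_⟩
    obtain ⟨q, rfl⟩ := hd
    rw [Polynomial.eval_mul, h.2 T₀ r hr hP, zero_mul]
  ren V W _ _ e F b h := by
    have h1 := poincare_iso p (renameEquiv ℤ e) F
    rw [renameEquiv_apply] at h1
    simp only [HoldsD, h1] at h
    exact h
  unit V _ f h b hf hu hF := by
    refine ⟨isRat_unit p f h hu hF.1, fun T₀ r hr hP => ?_⟩
    have hp0 : (p : ℂ) ≠ 0 := by exact_mod_cast hp.out.ne_zero
    have hT := pole_ne_zero hr hP
    have hneg := pole_neg p hf hr hP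
    have hd : (1 - (p : ℂ)⁻¹) ≠ 0 := by
      apply sub_ne_zero_of_norm_lt
      rw [norm_inv, Complex.norm_natCast]
      exact inv_lt_one_of_one_lt₀ (by exact_mod_cast hp.out.one_lt)
    obtain ⟨r', hr', hQ⟩ := pole_transfer (inv_ne_zero hp0) (pow_ne_zero 1 (inv_ne_zero hp0)) hd
      (poincare_FF p f h hu) hr hP
    have h1 := hF.2 (T₀ / ((p : ℂ)⁻¹) ^ 1) r' (by omega) hQ
    rw [log_shift p hT 1] at h1
    set t : ℝ := -Real.log ‖T₀‖ / Real.log p with ht
    have h2 : ((t - (1 : ℕ) : ℝ) : ℂ) = (t : ℂ) - (1 : ℕ) := by push_cast; rfl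
    rw [h2] at h1
    have h3 : b.comp (Polynomial.X + 1) =
        b.comp (Polynomial.X + Polynomial.C ((1 : ℕ) : ℂ)) := by
      rw [Nat.cast_one, Polynomial.C_1]
    rw [h3] at h1
    refine eval_aux 1 (fun h3 => ?_) h1
    have h4 := congrArg Complex.re h3
    simp only [Complex.sub_re, Complex.ofReal_re, Complex.neg_re,
      Complex.one_re, Nat.cast_one] at h4
    linarith
  sum V _ F b hF h := by
    classical
    refine ⟨?_, fun T₀ r hr hP => ?_⟩
    · rw [poincare_split]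
      exact (IsRat.sum _ _ fun c _ => (h c).1).const_mul _
    · by_contra hne
      refine RegAt.not_pole ?_ hr hP
      rw [poincare_split]
      refine (RegAt.sum _ _ fun c _ => ?_).const_mul _
      rcases (h c).1.reg_or_pole T₀ with h1 | ⟨r', hr', h1⟩
      · exact h1
      · exact absurd ((h c).2 T₀ r' hr' h1) hne

end

end Pool.Agent.Q221.Loc
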