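import Pool.Agent.Q221.Loc.Ball
import Pool.Agent.W206.CU.Cnt

/-!
# Nested balls, splitting of the densities
-/

set_option autoImplicit false

namespace Pool.Agent.Q221.Loc

open MvPolynomial Pool.Agent.W206.CU

variable {p : ℕ} [hp : Fact p.Prime]

/-- the ball around `c` -/
def ballP (p : ℕ) [Fact p.Prime] {V : Type} (c : V → ℤ) (k : ℕ) : Set (V → ℤ_[p]) :=
  {x | ∀ i, (p : ℤ_[p]) ^ k ∣ x i - c i}

theorem isClosed_ballP {V : Type} (c : V → ℤ) (k : ℕ) : IsClosed (ballP p c k) := by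
  have h : ballP p c k = ⋂ i, {x : V → ℤ_[p] | ‖x i - c i‖ ≤ (p : ℝ) ^ (-(k : ℤ))} := by
    ext x
    simp only [ballP, Set.mem_setOf_eq, Set.mem_iInter]
    refine forall_congr' fun i => ?_
    rw [PadicInt.norm_le_pow_iff_mem_span_pow, Ideal.mem_span_singleton]
  rw [h]
  refine isClosed_iInter fun i => isClosed_le ?_ continuous_const
  fun_prop

/-- **König's lemma for balls.** -/
theorem konig {V : Type} (G : (V → ℤ) → ℕ → Prop)
    (hsub : ∀ c k, (∀ d : V → Fin p, G (fun i => c i + (p : ℤ) ^ k * ((d i : ℕ) : ℤ)) (k + 1)) →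
      G c k)
    (hpt : ∀ a : V → ℤ_[p], ∃ k, ∀ c : V → ℤ, (∀ i, (p : ℤ_[p]) ^ k ∣ a i - c i) → G c k) :
    G (fun _ => 0) 0 := by
  by_contra h0
  have hex : ∀ (k : ℕ) (c : {c : V → ℤ // ¬ G c k}), ∃ c' : {c : V → ℤ // ¬ G c (k + 1)},
      ∀ i, (p : ℤ) ^ k ∣ c'.1 i - c.1 i := by
    rintro k ⟨c, hc⟩
    by_contra hne
    push Not at hne
    apply hc
    apply hsub
    intro d
    by_contra hd
    obtain ⟨i, hi⟩ := hne ⟨_, hd⟩
    apply hi
    exact ⟨((d i : ℕ) : ℤ), by ring⟩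
  choose nx hnx using hex
  let c : ∀ k, {c : V → ℤ // ¬ G c k} := fun k => Nat.rec ⟨fun _ => 0, h0⟩ (fun k c => nx k c) k
  have hc : ∀ k, ∀ i, (p : ℤ) ^ k ∣ (c (k + 1)).1 i - (c k).1 i := fun k => hnx k (c k)
  have hmono : ∀ k, ballP p (c (k + 1)).1 (k + 1) ⊆ ballP p (c k).1 k := by
    intro k x hx i
    have h1 : (p : ℤ_[p]) ^ k ∣ x i - (c (k + 1)).1 i := (pow_dvd_pow _ (Nat.le_succ k)).trans (hx i)
    have h2 : (p : ℤ_[p]) ^ k ∣ ((c (k + 1)).1 i : ℤ_[p]) - (c k).1 i := by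
      obtain ⟨z, hz⟩ := hc k i
      refine ⟨z, ?_⟩
      have := congrArg (Int.cast : ℤ → ℤ_[p]) hz
      push_cast at this
      exact this
    have h3 := dvd_add h1 h2
    rwa [sub_add_sub_cancel] at h3
  obtain ⟨a, ha⟩ := IsCompact.nonempty_iInter_of_sequence_nonempty_isCompact_isClosed
    (fun k => ballP p (c k).1 k) hmono (fun k => ⟨fun i => ((c k).1 i : ℤ_[p]), fun i => by simp⟩)
    (isClosed_ballP _ _).isCompact (fun k => isClosed_ballP _ _)
  rw [Set.mem_iInter] at ha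
  obtain ⟨k, hk⟩ := hpt a
  exact (c k).2 (hk _ (ha k))

/-! ### Densities -/

theorem finEquiv_eq (n : ℕ) [NeZero n] (j : Fin n) : ZMod.finEquiv n j = ((j : ℕ) : ZMod n) := by
  rcases n with _ | n
  · exact j.elim0
  · have h : ZMod.finEquiv (n + 1) j = j := rfl
    rw [h]
    exact (ZMod.natCast_zmod_val (n := n + 1) j).symm

/-- digits: `c + p y = x` with `x` modulo `p ^ M`, and the last digit -/
noncomputable def digits (p : ℕ) [hp : Fact p.Prime] (M : ℕ) :
    Fin p × ZMod (p ^ M) ≃ ZMod (p ^ M) × Fin p :=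
  haveI : NeZero (p ^ M) := ⟨pow_ne_zero _ hp.out.ne_zero⟩
  (Equiv.prodComm _ _).trans (((ZMod.finEquiv (p ^ M)).symm.toEquiv.prodCongr (Equiv.refl _)).trans
    (finProdFinEquiv.trans ((finCongr (mul_comm (p ^ M) p)).trans
      (finProdFinEquiv.symm.trans ((Equiv.prodComm _ _).trans
        ((ZMod.finEquiv (p ^ M)).toEquiv.prodCongr (Equiv.refl _)))))))

theorem digits_fst (M : ℕ) (c : Fin p) (y : ZMod (p ^ M)) :
    (digits p M (c, y)).1 = ((c : ℕ) : ZMod (p ^ M)) + (p : ZMod (p ^ M)) * y := by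
  have : NeZero (p ^ M) := ⟨pow_ne_zero _ hp.out.ne_zero⟩
  obtain ⟨m, rfl⟩ := (ZMod.finEquiv (p ^ M)).surjective y
  have h2 : (digits p M (c, ZMod.finEquiv (p ^ M) m)).1 =
      ZMod.finEquiv (p ^ M) ((finProdFinEquiv.symm ((finCongr (mul_comm (p ^ M) p))
        (finProdFinEquiv (m, c)))).2) := by
    simp [digits]
  rw [h2, finEquiv_eq, finEquiv_eq]
  have h3 : ((finProdFinEquiv.symm ((finCongr (mul_comm (p ^ M) p))
      (finProdFinEquiv (m, c)))).2 : ℕ) = (c + p * m) % p ^ M := by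
    simp [finProdFinEquiv, Fin.modNat]
  rw [h3, ZMod.natCast_mod]
  push_cast
  rfl

/-- Splitting of the number of solutions. -/
theorem num_split {V : Type} [Fintype V] [DecidableEq V] (F : MvPolynomial V ℤ) (M : ℕ) :
    ∑ c : V → Fin p, numIn (ZMod (p ^ M)) (sh (fun i => ((c i : ℕ) : ℤ)) (p : ℤ) F) =
      p ^ Fintype.card V * numIn (ZMod (p ^ M)) F := by
  have : NeZero (p ^ M) := ⟨pow_ne_zero _ hp.out.ne_zero⟩
  unfold numIn
  rw [← natCard_prod_sum fun (c : V → Fin p) (y : V → ZMod (p ^ M)) =>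
    aeval y (sh (fun i => ((c i : ℕ) : ℤ)) (p : ℤ) F) = 0]
  have hcard : Nat.card (V → Fin p) = p ^ Fintype.card V := by simp
  rw [← hcard, mul_comm, ← Nat.card_prod]
  refine Nat.card_congr
    { toFun := fun q => (⟨fun i => (digits p M (q.1.1 i, q.1.2 i)).1, ?_⟩,
        fun i => (digits p M (q.1.1 i, q.1.2 i)).2)
      invFun := fun q => ⟨(fun i => ((digits p M).symm (q.1.1 i, q.2 i)).1,
        fun i => ((digits p M).symm (q.1.1 i, q.2 i)).2), ?_⟩
      left_inv := ?_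
      right_inv := ?_ }
  · have h := q.2
    rw [aeval_sh] at h
    convert h using 3
    funext i
    rw [digits_fst]
    push_cast
    rfl
  · have h := q.1.2
    rw [aeval_sh]
    convert h using 3
    funext i
    have h1 := digits_fst (p := p) M ((digits p M).symm (q.1.1 i, q.2 i)).1
      ((digits p M).symm (q.1.1 i, q.2 i)).2
    rw [Prod.mk.eta, Equiv.apply_symm_apply] at h1
    dsimp only at h1
    rw [h1]
    push_cast
    rfl
  · intro q
    apply Subtype.ext
    apply Prod.ext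
    · funext i
      simp
    · funext i
      simp
  · intro q
    apply Prod.ext
    · apply Subtype.ext
      funext i
      simp
    · funext i
      simp

/-- **Splitting of the densities.** -/
theorem dens_split {V : Type} [Fintype V] [DecidableEq V] (F : MvPolynomial V ℤ) (M : ℕ) :
    ∑ c : V → Fin p, dens p (sh (fun i => ((c i : ℕ) : ℤ)) (p : ℤ) F) M =
      (p : ℚ) ^ Fintype.card V * dens p F M := by
  unfold dens
  rw [← Finset.sum_div, ← Nat.cast_sum, num_split]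
  push_cast
  ring

end Pool.Agent.Q221.Loc
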