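import Pool.Agent.Q221.Loc.Konig

/-!
# The local-global principle
-/

set_option autoImplicit false

namespace Pool.Agent.Q221.Loc

open MvPolynomial Pool.Agent.W206.CU
open Pool.Agent.H628R4.TP (weylS IsBFunction)

/-- The properties of the statements `H V F b` (the poles of the zeta function of `F` are bounded
by `b`) used for the local-global principle at the prime `p`. -/
structure Zax (p : ℕ) [Fact p.Prime]
    (H : ∀ (V : Type) [Fintype V], MvPolynomial V ℤ → Polynomial ℂ → Prop) : Prop where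
  dvd : ∀ (V : Type) [Fintype V] (F : MvPolynomial V ℤ) (b b' : Polynomial ℂ), b ∣ b' →
    H V F b → H V F b'
  ren : ∀ (V W : Type) [Fintype V] [Fintype W] (e : V ≃ W) (F : MvPolynomial V ℤ)
    (b : Polynomial ℂ), H W (rename e F) b → H V F b
  unit : ∀ (V : Type) [Fintype V] (f h : MvPolynomial V ℤ) (b : Polynomial ℂ), f ≠ 0 →
    (∀ x : V → ℤ_[p], ‖(aeval x h : ℤ_[p])‖ = 1) →
    H (V ⊕ Fin 3) (FF f h) ((Polynomial.X + 1) * b.comp (Polynomial.X + 1)) → H V f b
  sum : ∀ (V : Type) [Fintype V] (F : MvPolynomial V ℤ) (b : Polynomial ℂ), F ≠ 0 →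
    (∀ c : V → Fin p, H V (sh (fun i => ((c i : ℕ) : ℤ)) (p : ℤ) F) b) → H V F b

theorem FF_ne_zero {V : Type} {f h : MvPolynomial V ℤ} (hf : f ≠ 0) : FF f h ≠ 0 := by
  intro h0
  have h1 := congrArg (pderiv (Sum.inr 0)) h0
  rw [FF, map_add, map_zero, Derivation.leibniz, Derivation.leibniz, map_sub, Derivation.leibniz,
    pderiv_X_self, pderiv_X_of_ne (by simp), pderiv_X_of_ne (by simp),
    pderiv_rename_of_not Sum.inl (Sum.inr 0) (by simp),
    pderiv_rename_of_not Sum.inl (Sum.inr 0) (by simp), pderiv_one] at h1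
  simp only [smul_zero, zero_add, smul_eq_mul, mul_one, mul_zero, sub_zero, add_zero] at h1
  exact hf (rename_injective _ Sum.inl_injective (by rw [h1, map_zero]))

variable {p : ℕ} [hp : Fact p.Prime]
  {H : ∀ (V : Type) [Fintype V], MvPolynomial V ℤ → Polynomial ℂ → Prop}

/-- All polynomials satisfy the statement. -/
def Glob (H : ∀ (V : Type) [Fintype V], MvPolynomial V ℤ → Polynomial ℂ → Prop) : Prop :=
  ∀ (n : ℕ) (f : MvPolynomial (Fin n) ℤ), f ≠ 0 → ∀ b : Polynomial ℂ,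
    IsBFunction (map (Int.castRingHom ℂ) f) b → H (Fin n) f b

/-- All polynomials satisfy the statement locally at `p`-adic points. -/
def Local (p : ℕ) [Fact p.Prime]
    (H : ∀ (V : Type) [Fintype V], MvPolynomial V ℤ → Polynomial ℂ → Prop) : Prop :=
  ∀ (n : ℕ) (f : MvPolynomial (Fin n) ℤ), f ≠ 0 → ∀ a : Fin n → ℤ_[p], ∃ k₀ : ℕ, ∀ k ≥ k₀,
    ∀ c : Fin n → ℤ, (∀ i, (p : ℤ_[p]) ^ k ∣ a i - c i) → ∀ b : Polynomial ℂ, LocAt f a b →
      H (Fin n) (sh c ((p : ℤ) ^ k) f) b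

theorem glob_FF (hH : Zax p H) (hg : Glob H) {n : ℕ} {f h : MvPolynomial (Fin n) ℤ} (hf : f ≠ 0)
    {b : Polynomial ℂ}
    (hb : IsBFunctionOn (map (Int.castRingHom ℂ) f) (map (Int.castRingHom ℂ) h) b) :
    H (Fin n ⊕ Fin 3) (FF f h) ((Polynomial.X + 1) * b.comp (Polynomial.X + 1)) := by
  refine hH.ren _ (Fin (n + 3)) finSumFinEquiv _ _ (hg (n + 3) _ ?_ _ ?_)
  · intro h0
    exact FF_ne_zero hf (rename_injective _ finSumFinEquiv.injective (by rw [h0, map_zero]))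
  · have h1 := isBFunction_FF hb
    rw [← map_FF] at h1
    have h2 := isBFunction_iso (renameEquiv ℂ (finSumFinEquiv (m := n) (n := 3))) h1
    rw [renameEquiv_apply, ← map_rename] at h2
    exact h2

/-- **The local-global principle.** -/
theorem glob_iff_local (hH : Zax p H) : Glob H ↔ Local p H := by
  constructor
  · intro hg n f hf a
    obtain ⟨b₀, ⟨h, ha, hb₀⟩, hdvd⟩ := exists_gen f a
    obtain ⟨k₀, hk₀⟩ := unit_poly h a ha
    refine ⟨k₀, fun k hk c hc b hb => ?_⟩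
    refine hH.dvd _ _ _ _ (hdvd b hb) ?_
    obtain ⟨v, H', hH', hu⟩ := hk₀ k hk c hc
    have hpz : (p : ℤ) ≠ 0 := by exact_mod_cast hp.out.ne_zero
    have hpk : (p : ℤ) ^ k ≠ 0 := pow_ne_zero _ hpz
    have hf' : sh c ((p : ℤ) ^ k) f ≠ 0 := sh_ne_zero hpk hf
    refine hH.unit _ _ H' _ hf' hu (glob_FF hH hg hf' ?_)
    have h1 := isBFunctionOn_iso (shC (fun i => (c i : ℂ)) (((p : ℤ) ^ k : ℤ) : ℂ)
      (by exact_mod_cast hpk)) hb₀
    rw [← map_sh _ _ hpk, ← map_sh _ _ hpk, hH', map_mul, map_C] at h1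
    refine h1.of_C_mul ?_
    have hpc : (p : ℂ) ≠ 0 := by exact_mod_cast hp.out.ne_zero
    simpa using pow_ne_zero v hpc
  · intro hl n f hf b hb
    have key := konig (p := p) (fun (c : Fin n → ℤ) k => H (Fin n) (sh c ((p : ℤ) ^ k) f) b)
      (fun c k hd => ?_) (fun a => ?_)
    · simp only [pow_zero] at key
      rwa [sh_zero_one] at key
    · have hpz : (p : ℤ) ≠ 0 := by exact_mod_cast hp.out.ne_zero
      refine hH.sum _ _ _ (sh_ne_zero (pow_ne_zero _ hpz) hf) fun d => ?_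
      rw [sh_sh, ← pow_succ]
      exact hd d
    · obtain ⟨k₀, hk₀⟩ := hl n f hf a
      refine ⟨k₀, fun c hc => hk₀ k₀ le_rfl c hc b ⟨1, by rw [map_one]; exact one_ne_zero, ?_⟩⟩
      rw [map_one, isBFunctionOn_one]
      exact hb

end Pool.Agent.Q221.Loc
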